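import Pool.Agent.Lib_helper63.JO.Defs

/-!
# Project JO (MP_f4574f_nt): Hermite normal form and `T_{m²}` on families
-/

set_option autoImplicit false

namespace Pool.Agent.JO

open Complex MeasureTheory Filter Topology ModularGroup
open UpperHalfPlane hiding I
open scoped MatrixGroups ComplexConjugate

/-! ### Hermite normal form -/

theorem hk_cube {n a b d : ℕ} (hn : 0 < n) (h1 : a * d = n) (h2 : b < d) :
    0 < a ∧ 0 < d ∧ (a, b, d) ∈ Finset.range (n + 1) ×ˢ Finset.range (n + 1) ×ˢ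
      Finset.range (n + 1) := by
  have hd : 0 < d := by omega
  have ha : 0 < a := Nat.pos_of_ne_zero (by rintro rfl; simp at h1; omega)
  have h3 : a ≤ n := by nlinarith
  have h4 : d ≤ n := by nlinarith
  refine ⟨ha, hd, ?_⟩
  simp only [Finset.mem_product, Finset.mem_range]
  omega

theorem hk_mem_HM {n : ℕ} (hn : 0 < n) (t : ℕ × ℕ × ℕ) :
    t ∈ HM n ↔ t.1 * t.2.2 = n ∧ t.2.1 < t.2.2 := by
  obtain ⟨a, b, d⟩ := t
  constructor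
  · intro h
    exact (Finset.mem_filter.1 h).2
  · rintro ⟨h1, h2⟩
    exact Finset.mem_filter.2 ⟨(hk_cube hn h1 h2).2.2, h1, h2⟩

theorem hk_HM_sum {m : ℕ} (hm : 0 < m) (g : ℕ × ℕ × ℕ → ℂ) :
    ∑ t ∈ HM m, g t = ∑ a ∈ m.divisors, ∑ b ∈ Finset.range (m / a), g (a, b, m / a) := by
  rw [Finset.sum_sigma']
  symm
  refine Finset.sum_nbij' (i := fun x => (x.1, x.2, m / x.1)) (j := fun t => ⟨t.1, t.2.1⟩)
    ?_ ?_ ?_ ?_ ?_
  · rintro ⟨a, b⟩ hx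
    rw [Finset.mem_sigma, Nat.mem_divisors, Finset.mem_range] at hx
    rw [hk_mem_HM hm]
    exact ⟨Nat.mul_div_cancel' hx.1.1, hx.2⟩
  · rintro ⟨a, b, d⟩ ht
    rw [hk_mem_HM hm] at ht
    dsimp only at ht ⊢
    obtain ⟨ha, hd, -⟩ := hk_cube hm ht.1 ht.2
    rw [Finset.mem_sigma, Nat.mem_divisors, Finset.mem_range]
    refine ⟨⟨Dvd.intro _ ht.1, hm.ne'⟩, ?_⟩
    dsimp only
    rw [← ht.1, Nat.mul_div_cancel_left _ ha]
    exact ht.2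
  · rintro ⟨a, b⟩ hx
    rfl
  · rintro ⟨a, b, d⟩ ht
    rw [hk_mem_HM hm] at ht
    dsimp only at ht ⊢
    obtain ⟨ha, hd, -⟩ := hk_cube hm ht.1 ht.2
    rw [← ht.1, Nat.mul_div_cancel_left _ ha]
  · rintro ⟨a, b⟩ hx
    rfl

theorem hk_exists {m : ℕ} (hm : 0 < m) (A : Matrix (Fin 2) (Fin 2) ℤ) (hA : A.det = m) :
    ∃ (g : SL(2, ℤ)) (t : ℕ × ℕ × ℕ), t ∈ HM m ∧
      A = (g : Matrix (Fin 2) (Fin 2) ℤ) * !![(t.1 : ℤ), (t.2.1 : ℤ); 0, (t.2.2 : ℤ)] := by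
  have hm' : (m : ℤ) ≠ 0 := by exact_mod_cast hm.ne'
  suffices h : ∀ A : FixedDetMatrix (Fin 2) ℤ (m : ℤ), ∃ (g : SL(2, ℤ)) (t : ℕ × ℕ × ℕ),
      t ∈ HM m ∧
      A.1 = (g : Matrix (Fin 2) (Fin 2) ℤ) * !![(t.1 : ℤ), (t.2.1 : ℤ); 0, (t.2.2 : ℤ)] from
    h ⟨A, hA⟩
  intro A
  induction A using (FixedDetMatrices.induction_on hm') with
  | h0 A h1 h2 h3 h4 =>
    have hdet := A.2
    rw [Matrix.det_fin_two, h1, mul_zero, sub_zero] at hdet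
    have hd : 0 < A.1 1 1 := by
      by_contra hcon
      have hm0 : (0 : ℤ) < m := by exact_mod_cast hm
      nlinarith
    rw [abs_of_nonneg h3, abs_of_pos hd] at h4
    obtain ⟨a, ha⟩ := Int.eq_ofNat_of_zero_le h2.le
    obtain ⟨b, hb⟩ := Int.eq_ofNat_of_zero_le h3
    obtain ⟨d, hd'⟩ := Int.eq_ofNat_of_zero_le hd.le
    refine ⟨1, (a, b, d), ?_, ?_⟩
    · rw [hk_mem_HM hm]
      rw [ha, hd'] at hdet
      rw [hb, hd'] at h4
      exact ⟨by exact_mod_cast hdet, by exact_mod_cast h4⟩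
    · rw [Matrix.SpecialLinearGroup.coe_one, one_mul]
      ext i j
      fin_cases i <;> fin_cases j
      · exact ha
      · exact hb
      · exact h1
      · exact hd'
  | hS B hB =>
    obtain ⟨g, t, h1, h2⟩ := hB
    refine ⟨S * g, t, h1, ?_⟩
    rw [FixedDetMatrices.smul_coe, h2, Matrix.SpecialLinearGroup.coe_mul, Matrix.mul_assoc]
  | hT B hB =>
    obtain ⟨g, t, h1, h2⟩ := hB
    refine ⟨T * g, t, h1, ?_⟩
    rw [FixedDetMatrices.smul_coe, h2, Matrix.SpecialLinearGroup.coe_mul, Matrix.mul_assoc]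

theorem hk_unique {m : ℕ} (hm : 0 < m) {t t' : ℕ × ℕ × ℕ} (ht : t ∈ HM m)
    (ht' : t' ∈ HM m) (g : SL(2, ℤ))
    (h : !![(t.1 : ℤ), (t.2.1 : ℤ); 0, (t.2.2 : ℤ)] =
      (g : Matrix (Fin 2) (Fin 2) ℤ) * !![(t'.1 : ℤ), (t'.2.1 : ℤ); 0, (t'.2.2 : ℤ)]) : t = t' := by
  obtain ⟨a, b, d⟩ := t
  obtain ⟨a', b', d'⟩ := t'
  rw [hk_mem_HM hm] at ht ht'
  dsimp only at ht ht' h
  obtain ⟨ha, hd, -⟩ := hk_cube hm ht.1 ht.2
  obtain ⟨ha', hd', -⟩ := hk_cube hm ht'.1 ht'.2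
  have hC : ∀ i j : Fin 2, (!![(a : ℤ), (b : ℤ); 0, (d : ℤ)] : Matrix (Fin 2) (Fin 2) ℤ) i j =
      ((g : Matrix (Fin 2) (Fin 2) ℤ) * !![(a' : ℤ), (b' : ℤ); 0, (d' : ℤ)]) i j := by
    intro i j
    rw [h]
  have h00 := hC 0 0
  have h01 := hC 0 1
  have h10 := hC 1 0
  have h11 := hC 1 1
  simp only [Matrix.mul_apply, Fin.sum_univ_two, Matrix.of_apply, Matrix.cons_val_zero,
    Matrix.cons_val_one, Matrix.cons_val', Matrix.cons_val_fin_one, mul_zero,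
    add_zero] at h00 h01 h10 h11
  have hdet : g 0 0 * g 1 1 - g 0 1 * g 1 0 = 1 := by
    have := g.2
    rw [Matrix.det_fin_two] at this
    exact this
  have g10 : g 1 0 = 0 := by
    rcases mul_eq_zero.1 h10.symm with h | h
    · exact h
    · have : (a' : ℤ) ≠ 0 := by exact_mod_cast ha'.ne'
      exact absurd h this
  rw [g10, mul_zero, sub_zero] at hdet
  have haZ : (0 : ℤ) < a := by exact_mod_cast ha
  have haZ' : (0 : ℤ) < a' := by exact_mod_cast ha'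
  have hdZ : (0 : ℤ) < d := by exact_mod_cast hd
  have hdZ' : (0 : ℤ) < d' := by exact_mod_cast hd'
  have g00p : 0 < g 0 0 := by
    by_contra hcon
    nlinarith
  have g00 : g 0 0 = 1 ∧ g 1 1 = 1 := by
    rcases Int.mul_eq_one_iff_eq_one_or_neg_one.1 hdet with h | h
    · exact h
    · exact absurd h.1 (by intro h'; rw [h'] at g00p; omega)
  rw [g00.1, one_mul] at h00
  rw [g10, g00.2, zero_mul, zero_add, one_mul] at h11
  rw [g00.1, one_mul] at h01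
  have hb : (b : ℤ) < d := by exact_mod_cast ht.2
  have hb' : (b' : ℤ) < d' := by exact_mod_cast ht'.2
  have hb0 : (0 : ℤ) ≤ b := by positivity
  have hb0' : (0 : ℤ) ≤ b' := by positivity
  have g01 : g 0 1 = 0 := by
    rw [← h11] at h01 hb'
    have h5 : g 0 1 < 1 := by
      by_contra hcon
      nlinarith
    have h6 : -1 < g 0 1 := by
      by_contra hcon
      nlinarith
    omega
  rw [g01, zero_mul, add_zero] at h01
  have e1 : a = a' := by exact_mod_cast h00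
  have e2 : b = b' := by exact_mod_cast h01
  have e3 : d = d' := by exact_mod_cast h11
  rw [e1, e2, e3]

/-! ### the representatives as matrices -/

/-- the integral matrix `(a b; 0 d)` -/
def hkd (t : ℕ × ℕ × ℕ) : Matrix (Fin 2) (Fin 2) ℤ := !![(t.1 : ℤ), (t.2.1 : ℤ); 0, (t.2.2 : ℤ)]

theorem hk_hR_coe {m : ℕ} (hm : 0 < m) {t : ℕ × ℕ × ℕ} (ht : t ∈ HM (m ^ 2)) :
    (hR m t : Matrix (Fin 2) (Fin 2) ℝ) = (m : ℝ)⁻¹ • (hkd t).map (Int.castRingHom ℝ) := by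
  have h1 := ((hk_mem_HM (pow_pos hm 2) t).1 ht).1
  have h2 : (t.1 : ℝ) * t.2.2 = (m : ℝ) ^ 2 ∧ m ≠ 0 := ⟨by exact_mod_cast h1, hm.ne'⟩
  have h3 : (hR m t : Matrix (Fin 2) (Fin 2) ℝ) =
      !![(t.1 : ℝ) / m, (t.2.1 : ℝ) / m; 0, (t.2.2 : ℝ) / m] :=
    congrArg Subtype.val (dif_pos h2)
  rw [h3]
  ext i j
  fin_cases i <;> fin_cases j <;> simp [hkd, div_eq_inv_mul]

theorem hk_unit {N m : ℕ} (hmN : m.Coprime N) : (m : ZMod N) * (m : ZMod N)⁻¹ = 1 :=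
  ZMod.coe_mul_inv_eq_one m hmN

theorem hk_hQ_coe {N m : ℕ} (hm : 0 < m) (hmN : m.Coprime N) {t : ℕ × ℕ × ℕ}
    (ht : t ∈ HM (m ^ 2)) :
    (hQ N m t : Matrix (Fin 2) (Fin 2) (ZMod N)) =
      (m : ZMod N)⁻¹ • (hkd t).map (Int.castRingHom (ZMod N)) := by
  have h1 := ((hk_mem_HM (pow_pos hm 2) t).1 ht).1
  have h2 : (m : ZMod N) * (m : ZMod N)⁻¹ = 1 ∧ t.1 * t.2.2 = m ^ 2 := ⟨hk_unit hmN, h1⟩
  have h3 : (hQ N m t : Matrix (Fin 2) (Fin 2) (ZMod N)) =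
      !![(t.1 : ZMod N) * (m : ZMod N)⁻¹, (t.2.1 : ZMod N) * (m : ZMod N)⁻¹;
        0, (t.2.2 : ZMod N) * (m : ZMod N)⁻¹] :=
    congrArg Subtype.val (dif_pos h2)
  rw [h3]
  ext i j
  fin_cases i <;> fin_cases j <;> simp [hkd, mul_comm]

theorem hk_hR_mul {m : ℕ} (hm : 0 < m) {t t' : ℕ × ℕ × ℕ} (ht : t ∈ HM (m ^ 2))
    (ht' : t' ∈ HM (m ^ 2)) {γ σ : SL(2, ℤ)}
    (h : hkd t * (γ : Matrix (Fin 2) (Fin 2) ℤ) = (σ : Matrix (Fin 2) (Fin 2) ℤ) * hkd t') :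
    hR m t * toR γ = toR σ * hR m t' := by
  apply Subtype.ext
  rw [Matrix.SpecialLinearGroup.coe_mul, Matrix.SpecialLinearGroup.coe_mul, hk_hR_coe hm ht,
    hk_hR_coe hm ht']
  have e1 : (toR γ : Matrix (Fin 2) (Fin 2) ℝ) =
    (γ : Matrix (Fin 2) (Fin 2) ℤ).map (Int.castRingHom ℝ) := rfl
  have e2 : (toR σ : Matrix (Fin 2) (Fin 2) ℝ) =
    (σ : Matrix (Fin 2) (Fin 2) ℤ).map (Int.castRingHom ℝ) := rfl
  rw [e1, e2, Matrix.smul_mul, Matrix.mul_smul, ← Matrix.map_mul, ← Matrix.map_mul, h]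

theorem hk_hQ_mul {N m : ℕ} (hm : 0 < m) (hmN : m.Coprime N) {t t' : ℕ × ℕ × ℕ}
    (ht : t ∈ HM (m ^ 2)) (ht' : t' ∈ HM (m ^ 2)) {γ σ : SL(2, ℤ)}
    (h : hkd t * (γ : Matrix (Fin 2) (Fin 2) ℤ) = (σ : Matrix (Fin 2) (Fin 2) ℤ) * hkd t') :
    hQ N m t * red N γ = red N σ * hQ N m t' := by
  apply Subtype.ext
  rw [Matrix.SpecialLinearGroup.coe_mul, Matrix.SpecialLinearGroup.coe_mul, hk_hQ_coe hm hmN ht,
    hk_hQ_coe hm hmN ht']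
  have e1 : (red N γ : Matrix (Fin 2) (Fin 2) (ZMod N)) =
    (γ : Matrix (Fin 2) (Fin 2) ℤ).map (Int.castRingHom (ZMod N)) := rfl
  have e2 : (red N σ : Matrix (Fin 2) (Fin 2) (ZMod N)) =
    (σ : Matrix (Fin 2) (Fin 2) ℤ).map (Int.castRingHom (ZMod N)) := rfl
  rw [e1, e2, Matrix.smul_mul, Matrix.mul_smul, ← Matrix.map_mul, ← Matrix.map_mul, h]

/-- the bijection of the representatives given by right multiplication by `γ` -/
theorem hk_coset {n : ℕ} (hn : 0 < n) (γ : SL(2, ℤ)) :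
    ∃ φ : ℕ × ℕ × ℕ → ℕ × ℕ × ℕ, Set.BijOn φ (HM n : Set (ℕ × ℕ × ℕ)) (HM n : Set (ℕ × ℕ × ℕ)) ∧
      ∀ t ∈ HM n, ∃ σ : SL(2, ℤ), hkd t * (γ : Matrix (Fin 2) (Fin 2) ℤ) =
        (σ : Matrix (Fin 2) (Fin 2) ℤ) * hkd (φ t) := by
  have hex : ∀ t : ℕ × ℕ × ℕ, t ∈ HM n → ∃ x : SL(2, ℤ) × (ℕ × ℕ × ℕ),
      x.2 ∈ HM n ∧ hkd t * (γ : Matrix (Fin 2) (Fin 2) ℤ) =
        (x.1 : Matrix (Fin 2) (Fin 2) ℤ) * hkd x.2 := by
    intro t ht
    rw [hk_mem_HM hn] at ht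
    obtain ⟨g', t', h1, h2⟩ := hk_exists hn (hkd t * (γ : Matrix (Fin 2) (Fin 2) ℤ)) (by
        rw [Matrix.det_mul, hkd, Matrix.det_fin_two_of, mul_zero, sub_zero,
          Matrix.SpecialLinearGroup.det_coe, mul_one]
        exact_mod_cast ht.1)
    exact ⟨(g', t'), h1, h2⟩
  choose! φ hφ1 hφ2 using hex
  refine ⟨fun t => (φ t).2, ?_, fun t ht => ⟨(φ t).1, hφ2 t ht⟩⟩
  have hinj : Set.InjOn (fun t => (φ t).2) (HM n : Set (ℕ × ℕ × ℕ)) := by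
    intro t ht s hs hts
    have h1 := hφ2 t ht
    have h2 := hφ2 s hs
    dsimp only at hts
    rw [hts] at h1
    refine hk_unique hn ht hs ((φ t).1 * (φ s).1⁻¹) ?_
    have hgg : (γ : Matrix (Fin 2) (Fin 2) ℤ) * ((γ⁻¹ : SL(2, ℤ)) : Matrix (Fin 2) (Fin 2) ℤ) = 1 := by
      rw [← Matrix.SpecialLinearGroup.coe_mul, mul_inv_cancel, Matrix.SpecialLinearGroup.coe_one]
    have hss : (((φ s).1⁻¹ : SL(2, ℤ)) : Matrix (Fin 2) (Fin 2) ℤ) *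
        ((φ s).1 : Matrix (Fin 2) (Fin 2) ℤ) = 1 := by
      rw [← Matrix.SpecialLinearGroup.coe_mul, inv_mul_cancel, Matrix.SpecialLinearGroup.coe_one]
    have h3 : hkd (φ s).2 = (((φ s).1⁻¹ : SL(2, ℤ)) : Matrix (Fin 2) (Fin 2) ℤ) *
          (hkd s * (γ : Matrix (Fin 2) (Fin 2) ℤ)) := by
      rw [h2, ← Matrix.mul_assoc, hss, Matrix.one_mul]
    rw [h3] at h1
    show hkd t = _ * hkd s
    calc hkd t
        = (hkd t * (γ : Matrix (Fin 2) (Fin 2) ℤ)) *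
          ((γ⁻¹ : SL(2, ℤ)) : Matrix (Fin 2) (Fin 2) ℤ) := by
          rw [Matrix.mul_assoc, hgg, Matrix.mul_one]
      _ = _ := by
          rw [h1, Matrix.SpecialLinearGroup.coe_mul]
          simp only [Matrix.mul_assoc]
          rw [hgg, Matrix.mul_one]
  have hmaps : Set.MapsTo (fun t => (φ t).2) (HM n : Set (ℕ × ℕ × ℕ))
      (HM n : Set (ℕ × ℕ × ℕ)) := fun t ht => hφ1 t ht
  exact ⟨hmaps, hinj, Finset.surjOn_of_injOn_of_card_le _ hmaps hinj le_rfl⟩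

/-- `T_{m²}` maps families to families -/
theorem hk_fam_Tm {N m : ℕ} (hm : 0 < m) (hmN : m.Coprime N) {F : QN N → SL(2, ℝ) → ℂ} (hF : Fam F) :
    Fam (Tm m F) := by
  intro γ s g
  obtain ⟨φ, hφ, hσ⟩ := hk_coset (pow_pos hm 2) γ
  rw [Tm, Tm]
  congr 1
  refine Finset.sum_nbij φ (fun t ht => hφ.mapsTo ht) hφ.injOn hφ.surjOn ?_
  intro t ht
  obtain ⟨σ, h⟩ := hσ t ht
  have ht' : φ t ∈ HM (m ^ 2) := hφ.mapsTo ht
  rw [← mul_assoc, ← mul_assoc, hk_hR_mul hm ht ht' h, hk_hQ_mul hm hmN ht ht' h, mul_assoc,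
    mul_assoc, hF]

end Pool.Agent.JO
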