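import Pool.Agent.Lib_helper97.JO.HKF

/-!
# Project JO (MP_f4574f_nt): the statements of `WantedHK.lean` of helper84, proved
-/

set_option autoImplicit false

namespace Pool.Agent.JO

open Complex MeasureTheory Filter Topology
open UpperHalfPlane hiding I
open scoped MatrixGroups ComplexConjugate

/-- reduction modulo `N` is surjective (helper68 has it) -/
theorem red_surj (N : ℕ) [NeZero N] (s : QN N) : ∃ γ : SL(2, ℤ), red N γ = s :=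
  red_surj_pr N s

theorem red_lft {N : ℕ} [NeZero N] (s : QN N) : red N (lft s) = s :=
  red_lft_pr s

/-- the value of `liftK` does not depend on the lift -/
theorem liftK_red {N : ℕ} [NeZero N] {χ : DirichletCharacter ℂ N} {k : ℕ} {lam : ℕ → ℂ}
    {u : ℍ → ℂ} (hu : WForm N χ k lam u) (γ : SL(2, ℤ)) (g : SL(2, ℝ)) :
    liftK k u (red N γ) g =
      u (((toR γ)⁻¹ * g) • UpperHalfPlane.I) * (juI ((toR γ)⁻¹ * g) ^ k)⁻¹ :=
  liftK_red_pr hu γ g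

theorem fam_liftK {N : ℕ} [NeZero N] {χ : DirichletCharacter ℂ N} {k : ℕ} {lam : ℕ → ℂ}
    {u : ℍ → ℂ} (hu : WForm N χ k lam u) : Fam (N := N) (liftK k u) :=
  fam_liftK_pr hu

theorem mf_liftK {N : ℕ} [NeZero N] {χ : DirichletCharacter ℂ N} {k : ℕ} {lam : ℕ → ℂ}
    {u : ℍ → ℂ} (hu : WForm N χ k lam u) : MF (N := N) (liftK k u) :=
  mf_liftK_pr hu

/-- continuity in the coordinates -/
theorem continuous_liftK {N : ℕ} [NeZero N] {χ : DirichletCharacter ℂ N} {k : ℕ} {lam : ℕ → ℂ}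
    {u : ℍ → ℂ} (hu : WForm N χ k lam u) (s : QN N) :
    Continuous fun p : ℍ × ℝ => liftK k u s (gg p.1 p.2) :=
  continuous_liftK_pr hu s

/-- continuity on the group -/
theorem continuous_liftK' {N : ℕ} [NeZero N] {χ : DirichletCharacter ℂ N} {k : ℕ} {lam : ℕ → ℂ}
    {u : ℍ → ℂ} (hu : WForm N χ k lam u) (s : QN N) :
    Continuous fun g : SL(2, ℝ) => liftK k u s g :=
  continuous_liftK'_pr hu s

/-- `K`-type -/
theorem liftK_kK {N : ℕ} (k : ℕ) (u : ℍ → ℂ) (s : QN N) (g : SL(2, ℝ)) (a : ℝ) :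
    liftK k u s (g * kK a) = cexp (k * a * I) * liftK k u s g :=
  liftK_kK_pr k u s g a

theorem gg_eq_mul_kK (z : ℍ) (a : ℝ) : gg z a = gg z 0 * kK a :=
  gg_eq_mul_kK_pr z a

theorem gg_smul_I (z : ℍ) (a : ℝ) : gg z a • UpperHalfPlane.I = z :=
  gg_smul_I_pr z a

/-- the decay -/
theorem liftK_decay {N : ℕ} [NeZero N] {χ : DirichletCharacter ℂ N} {k : ℕ} {lam : ℕ → ℂ}
    {u : ℍ → ℂ} (hu : WForm N χ k lam u) :
    ∃ C c : ℝ, 0 < c ∧ ∀ (s : QN N) (z : ℍ) (a : ℝ), 1 / 2 ≤ z.im →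
      ‖liftK k u s (gg z a)‖ ≤ C * Real.exp (-c * z.im) :=
  liftK_decay_pr hu

/-- boundedness (every `g` is `toR γ * g'` with `g' i` in the fundamental domain) -/
theorem liftK_bdd {N : ℕ} [NeZero N] {χ : DirichletCharacter ℂ N} {k : ℕ} {lam : ℕ → ℂ}
    {u : ℍ → ℂ} (hu : WForm N χ k lam u) :
    ∃ B : ℝ, ∀ (s : QN N) (g : SL(2, ℝ)), ‖liftK k u s g‖ ≤ B :=
  liftK_bdd_pr hu

theorem famH_phiF {N : ℕ} [NeZero N] {χ : DirichletCharacter ℂ N} {k : ℕ} {lam : ℕ → ℂ}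
    {u : ℍ → ℂ} (hu : WForm N χ k lam u) : FamH (N := N) (phiF u) :=
  famH_phiF_pr hu

theorem liftH_phiF {N : ℕ} [NeZero N] {χ : DirichletCharacter ℂ N} {k : ℕ} {lam : ℕ → ℂ}
    {u : ℍ → ℂ} (hu : WForm N χ k lam u) (s : QN N) (g : SL(2, ℝ)) :
    liftH (phiF u) s g = liftK k u s g * conj (liftK k u s g) :=
  liftH_phiF_pr hu s g

theorem phiF_one {N : ℕ} [NeZero N] {χ : DirichletCharacter ℂ N} {k : ℕ} {lam : ℕ → ℂ}
    {u : ℍ → ℂ} (hu : WForm N χ k lam u) (z : ℍ) : phiF u (1 : QN N) z = ((‖u z‖ ^ 2 : ℝ) : ℂ) :=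
  phiF_one_pr hu z

/-- `T_{p²}` on the family: the eigenvalue is `conj χ(p) λ(p)² - 1` -/
theorem Tm_liftK {N : ℕ} [NeZero N] {χ : DirichletCharacter ℂ N} {k : ℕ} {lam : ℕ → ℂ}
    {u : ℍ → ℂ} (hu : WForm N χ k lam u) (p : ℕ) (hp : p.Prime) (hpN : ¬ p ∣ N) (s : QN N)
    (g : SL(2, ℝ)) :
    Tm p (liftK k u) s g = (conj (χ (p : ZMod N)) * lam p ^ 2 - 1) * liftK k u s g :=
  Tm_liftK_pr hu p hp hpN s g

/-- `WForm` from the behaviour at the cusps -/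
theorem WForm.of_isBigO {N : ℕ} [NeZero N] {χ : DirichletCharacter ℂ N} {k : ℕ} {lam : ℕ → ℂ}
    {u : ℍ → ℂ} (cont : Continuous u)
    (aut : ∀ γ : SL(2, ℤ), (N : ℤ) ∣ γ 1 0 → ∀ z : ℍ,
      u (γ • z) = χ ((γ 1 1 : ℤ) : ZMod N) * (denom γ z / ‖denom γ z‖) ^ k * u z)
    {c : ℝ} (hc : 0 < c)
    (decay : ∀ γ : SL(2, ℤ), (fun z : ℍ => u (γ • z)) =O[atImInfty]
      fun z : ℍ => Real.exp (-c * z.im))
    (hecke : ∀ p : ℕ, p.Prime → ¬ p ∣ N → ∀ z : ℍ, heckeT χ p u z = lam p * u z) :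
    WForm N χ k lam u :=
  WForm_of_isBigO_pr cont aut hc decay hecke

end Pool.Agent.JO
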