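import Pool.Agent.Lib_helper23.BGF.LBC
import Pool.Agent.Lib_helper92.HCF.SPB

/-!
# Project JO (MP_f4574f_nt), part ZF: `1/L(1+it, χ) ≪ log^8 (|t| + 2)`
-/

set_option autoImplicit false

namespace Pool.Agent.ZP

open Filter Complex Topology

/-- a lower bound on the right of the line passes to the line -/
theorem llow_lim {N : ℕ} [NeZero N] (χ : DirichletCharacter ℂ N) {t c : ℝ}
    (h0 : t ≠ 0 ∨ χ ≠ 1)
    (h : ∀ σ : ℝ, 1 < σ → σ ≤ 2 → c ≤ ‖DirichletCharacter.LFunction χ (σ + t * I)‖) :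
    c ≤ ‖DirichletCharacter.LFunction χ (1 + t * I)‖ := by
  have h1 : ContinuousAt (DirichletCharacter.LFunction χ) (1 + t * I) := by
    refine (DirichletCharacter.differentiableAt_LFunction χ _ ?_).continuousAt
    rcases h0 with h0 | h0
    · left
      intro h2
      have h3 := congrArg Complex.im h2
      simp at h3
      exact h0 h3
    · exact Or.inr h0
  have h2 : ContinuousAt (fun σ : ℝ => ‖DirichletCharacter.LFunction χ (σ + t * I)‖) 1 := by
    refine ContinuousAt.norm ?_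
    have h3 : ContinuousAt (fun σ : ℝ => (σ : ℂ) + t * I) 1 := by fun_prop
    refine ContinuousAt.comp (f := fun σ : ℝ => (σ : ℂ) + t * I) ?_ h3
    rw [Complex.ofReal_one]
    exact h1
  have h3 : Tendsto (fun σ : ℝ => ‖DirichletCharacter.LFunction χ (σ + t * I)‖) (𝓝[>] 1)
      (𝓝 ‖DirichletCharacter.LFunction χ (1 + t * I)‖) := by
    have := h2.tendsto.mono_left (nhdsWithin_le_nhds (s := Set.Ioi (1 : ℝ)))
    rwa [Complex.ofReal_one] at this
  refine ge_of_tendsto h3 ?_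
  filter_upwards [Ioc_mem_nhdsGT (show (1 : ℝ) < 2 by norm_num)] with σ hσ
  exact h σ hσ.1 hσ.2

theorem llow_inv {z : ℂ} {c l : ℝ} (hc : 0 < c) (hl : 0 < l) (h : c / l ≤ ‖z‖) :
    ‖z⁻¹‖ ≤ c⁻¹ * l := by
  rw [norm_inv]
  have h1 : 0 < c / l := div_pos hc hl
  calc ‖z‖⁻¹ ≤ (c / l)⁻¹ := inv_anti₀ h1 h
    _ = c⁻¹ * l := by rw [inv_div]; ring

theorem llow_log (t : ℝ) : Real.log 2 ≤ Real.log (|t| + 2) :=
  Real.log_le_log (by norm_num) (by linarith [abs_nonneg t])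

theorem llow_lt {N : ℕ} [NeZero N] (t : ℝ) :
    Pool.Agent.BG.lt N t ≤ (Real.log N / Real.log 2 + 1) * Real.log (|t| + 2) := by
  have hN : (0 : ℝ) < N := by exact_mod_cast Nat.pos_of_ne_zero (NeZero.ne N)
  have hN1 : (1 : ℝ) ≤ N := by exact_mod_cast Nat.pos_of_ne_zero (NeZero.ne N)
  have h2 : 0 < Real.log 2 := Real.log_pos one_lt_two
  have ht := abs_nonneg t
  rw [Pool.Agent.BG.lt, Real.log_mul hN.ne' (by positivity), add_mul, one_mul]
  have h3 : 0 ≤ Real.log N / Real.log 2 := div_nonneg (Real.log_nonneg hN1) h2.le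
  have h4 : Real.log N = Real.log N / Real.log 2 * Real.log 2 := by field_simp
  have h5 := mul_le_mul_of_nonneg_left (llow_log t) h3
  linarith

/-- nontrivial characters -/
theorem llow_ne {N : ℕ} [NeZero N] (χ : DirichletCharacter ℂ N) (hχ : χ ≠ 1) :
    ∃ C : ℝ, 0 < C ∧ ∀ t : ℝ,
      ‖(DirichletCharacter.LFunction χ (1 + t * I))⁻¹‖ ≤ C * Real.log (|t| + 2) ^ 8 := by
  have h2 : 0 < Real.log 2 := Real.log_pos one_lt_two
  -- the lower bound for `σ > 1`
  have hlow : ∃ c : ℝ, 0 < c ∧ ∀ σ t : ℝ, 1 < σ → σ ≤ 2 →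
      c / Pool.Agent.BG.lt N t ^ 8 ≤ ‖Pool.Agent.BG.Lj χ 0 (σ + t * I)‖ := by
    by_cases hr : χ ^ 2 = 1
    · obtain ⟨c, hc, h⟩ := Pool.Agent.BG.L_lower_real
      have h1 : 0 < ‖DirichletCharacter.LFunction χ 1‖ :=
        norm_pos_iff.2 (DirichletCharacter.LFunction_apply_one_ne_zero hχ)
      exact ⟨c * min 1 ‖DirichletCharacter.LFunction χ 1‖, mul_pos hc (lt_min one_pos h1),
        fun σ t h3 h4 => h N χ hχ hr σ t h3 h4⟩
    · obtain ⟨c, hc, h⟩ := Pool.Agent.BG.L_lower_complex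
      exact ⟨c, hc, fun σ t h3 h4 => h N χ hχ hr σ t h3 h4⟩
  obtain ⟨c, hc, h⟩ := hlow
  have hN1 : (1 : ℝ) ≤ N := by exact_mod_cast Nat.pos_of_ne_zero (NeZero.ne N)
  set K : ℝ := Real.log N / Real.log 2 + 1 with hK
  have hK0 : 0 < K := by
    have : 0 ≤ Real.log N / Real.log 2 := div_nonneg (Real.log_nonneg hN1) h2.le
    linarith
  refine ⟨c⁻¹ * K ^ 8, by positivity, fun t => ?_⟩
  have hlt : 1 ≤ Pool.Agent.BG.lt N t :=
    Pool.Agent.BG.LBC_lt_ge (Pool.Agent.BG.LBC_two_le hχ) t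
  have h3 := llow_lim χ (t := t) (c := c / Pool.Agent.BG.lt N t ^ 8) (Or.inr hχ)
    fun σ h4 h5 => by
      rw [← Pool.Agent.BG.Lj_zero_eq χ _ (by simpa using h4)]
      exact h σ t h4 h5
  have h4 := llow_inv hc (by positivity) h3
  refine h4.trans ?_
  rw [mul_assoc, ← mul_pow]
  apply mul_le_mul_of_nonneg_left _ (by positivity)
  exact pow_le_pow_left₀ (by linarith) (llow_lt t) 8

theorem llow_zeta : ∃ c : ℝ, 0 < c ∧ ∀ t : ℝ, 1 ≤ |t| →
    c / Real.log (|t| + 2) ^ 8 ≤ ‖riemannZeta (1 + t * I)‖ := by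
  obtain ⟨c, hc, h⟩ := Pool.Agent.HC.zeta_lower_pr
  refine ⟨c, hc, fun t ht => ?_⟩
  have ht0 : t ≠ 0 := by
    rintro rfl
    norm_num at ht
  have h3 := llow_lim (1 : DirichletCharacter ℂ 1) (t := t) (c := c / Real.log (|t| + 2) ^ 8)
    (Or.inl ht0) fun σ h4 h5 => by
      rw [← Pool.Agent.BG.Lj_zero_eq _ _ (by simpa using h4)]
      exact h σ t h4 h5 ht
  rwa [DirichletCharacter.LFunction_modOne_eq] at h3

/-- the trivial character -/
theorem llow_one {N : ℕ} [NeZero N] :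
    ∃ C : ℝ, 0 < C ∧ ∀ t : ℝ, t ≠ 0 →
      ‖(DirichletCharacter.LFunction (1 : DirichletCharacter ℂ N) (1 + t * I))⁻¹‖ ≤
        C * Real.log (|t| + 2) ^ 8 := by
  have h2 : 0 < Real.log 2 := Real.log_pos one_lt_two
  obtain ⟨c, hc, hz⟩ := llow_zeta
  have hne1 : ∀ t : ℝ, t ≠ 0 → (1 : ℂ) + t * I ≠ 1 := by
    intro t ht h
    have h3 := congrArg Complex.im h
    simp at h3
    exact ht h3
  -- the compact part
  set g : ℝ → ℝ := fun t => ‖DirichletCharacter.LFunctionTrivChar₁ N (1 + t * I)‖ with hg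
  have hgc : Continuous g := by
    refine Continuous.norm ?_
    exact (DirichletCharacter.differentiable_LFunctionTrivChar₁ N).continuous.comp (by fun_prop)
  have hgt : ∀ t : ℝ, t ≠ 0 → g t =
      |t| * ‖DirichletCharacter.LFunction (1 : DirichletCharacter ℂ N) (1 + t * I)‖ := by
    intro t ht
    rw [hg]
    simp only
    rw [DirichletCharacter.LFunctionTrivChar₁, Function.update_of_ne (hne1 t ht), norm_mul,
      add_sub_cancel_left, norm_mul, Complex.norm_I, mul_one, Complex.norm_real, Real.norm_eq_abs]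
  have hgpos : ∀ t : ℝ, 0 < g t := by
    intro t
    by_cases ht : t = 0
    · subst ht
      rw [hg]
      simp only [Complex.ofReal_zero, zero_mul, add_zero]
      exact norm_pos_iff.2 (DirichletCharacter.LFunctionTrivChar₁_apply_one_ne_zero N)
    · rw [hgt t ht]
      refine mul_pos (abs_pos.2 ht) (norm_pos_iff.2 ?_)
      exact DirichletCharacter.LFunction_ne_zero_of_one_le_re _ (Or.inr (hne1 t ht)) (by simp)
  obtain ⟨t₀, -, ht₀⟩ := (isCompact_Icc (a := (-1 : ℝ)) (b := 1)).exists_isMinOn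
    ⟨0, by norm_num⟩ hgc.continuousOn
  have hmin : ∀ t : ℝ, |t| ≤ 1 → g t₀ ≤ g t := fun t ht => ht₀ (abs_le.1 ht)
  -- the product
  set κ : ℝ := (1 / 2) ^ N.primeFactors.card with hκ
  have hκ0 : 0 < κ := by positivity
  have hprod : ∀ t : ℝ, κ ≤ ‖∏ p ∈ N.primeFactors, (1 - (p : ℂ) ^ (-(1 + t * I) : ℂ))‖ := by
    intro t
    rw [norm_prod, hκ, ← Finset.prod_const]
    refine Finset.prod_le_prod (fun p _ => by norm_num) fun p hp => ?_
    have hp2 : 2 ≤ p := (Nat.prime_of_mem_primeFactors hp).two_le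
    have hp0 : (0 : ℝ) < p := by positivity
    have h3 : ‖(p : ℂ) ^ (-(1 + t * I) : ℂ)‖ = (p : ℝ)⁻¹ := by
      rw [← Complex.ofReal_natCast, Complex.norm_cpow_eq_rpow_re_of_pos hp0]
      simp [Real.rpow_neg_one]
    have h4 : (p : ℝ)⁻¹ ≤ 1 / 2 := by
      rw [inv_eq_one_div]
      exact one_div_le_one_div_of_le (by norm_num) (by exact_mod_cast hp2)
    have h5 := norm_sub_norm_le (1 : ℂ) ((p : ℂ) ^ (-(1 + t * I) : ℂ))
    rw [norm_one, h3] at h5
    linarith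
  refine ⟨(κ * c)⁻¹ + (g t₀)⁻¹ * (Real.log 2 ^ 8)⁻¹, ?_, fun t ht => ?_⟩
  · have := hgpos t₀
    positivity
  have hl0 : 0 < Real.log (|t| + 2) := lt_of_lt_of_le h2 (llow_log t)
  rcases le_total 1 |t| with h1 | h1
  · have h3 : (κ * c) / Real.log (|t| + 2) ^ 8 ≤
        ‖DirichletCharacter.LFunction (1 : DirichletCharacter ℂ N) (1 + t * I)‖ := by
      have h4 := DirichletCharacter.LFunctionTrivChar_eq_mul_riemannZeta (N := N) (hne1 t ht)
      rw [DirichletCharacter.LFunctionTrivChar] at h4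
      rw [h4, norm_mul, mul_div_assoc]
      exact mul_le_mul (hprod t) (hz t h1) (by positivity) (norm_nonneg _)
    refine (llow_inv (by positivity) (by positivity) h3).trans ?_
    apply mul_le_mul_of_nonneg_right _ (by positivity)
    have : 0 ≤ (g t₀)⁻¹ * (Real.log 2 ^ 8)⁻¹ := by
      have := hgpos t₀
      positivity
    linarith
  · have h3 : g t₀ ≤ ‖DirichletCharacter.LFunction (1 : DirichletCharacter ℂ N) (1 + t * I)‖ := by
      refine (hmin t h1).trans ?_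
      rw [hgt t ht]
      calc |t| * ‖DirichletCharacter.LFunction (1 : DirichletCharacter ℂ N) (1 + t * I)‖
          ≤ 1 * ‖DirichletCharacter.LFunction (1 : DirichletCharacter ℂ N) (1 + t * I)‖ :=
            mul_le_mul_of_nonneg_right h1 (norm_nonneg _)
        _ = _ := one_mul _
    have h4 : ‖(DirichletCharacter.LFunction (1 : DirichletCharacter ℂ N) (1 + t * I))⁻¹‖ ≤
        (g t₀)⁻¹ := by
      rw [norm_inv]
      exact inv_anti₀ (hgpos t₀) h3
    have h5 : 1 ≤ (Real.log 2 ^ 8)⁻¹ * Real.log (|t| + 2) ^ 8 := by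
      rw [← div_eq_inv_mul, one_le_div (by positivity)]
      exact pow_le_pow_left₀ h2.le (llow_log t) 8
    have h6 := hgpos t₀
    calc ‖(DirichletCharacter.LFunction (1 : DirichletCharacter ℂ N) (1 + t * I))⁻¹‖
        ≤ (g t₀)⁻¹ * 1 := by rw [mul_one]; exact h4
      _ ≤ (g t₀)⁻¹ * ((Real.log 2 ^ 8)⁻¹ * Real.log (|t| + 2) ^ 8) :=
          mul_le_mul_of_nonneg_left h5 (by positivity)
      _ ≤ ((κ * c)⁻¹ + (g t₀)⁻¹ * (Real.log 2 ^ 8)⁻¹) * Real.log (|t| + 2) ^ 8 := by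
          have : 0 ≤ (κ * c)⁻¹ * Real.log (|t| + 2) ^ 8 := by positivity
          linarith

theorem L_one_inv (N : ℕ) [NeZero N] (χ : DirichletCharacter ℂ N) :
    ∃ C : ℝ, 0 < C ∧ ∀ t : ℝ, t ≠ 0 →
      ‖(DirichletCharacter.LFunction χ (1 + t * I))⁻¹‖ ≤ C * Real.log (|t| + 2) ^ 8 := by
  by_cases hχ : χ = 1
  · subst hχ
    exact llow_one
  · obtain ⟨C, hC, h⟩ := llow_ne χ hχ
    exact ⟨C, hC, fun t _ => h t⟩

end Pool.Agent.ZP
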