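import Pool.Agent.Lib_helper97.JO.FH0

/-!
# Project JO (MP_f4574f_nt), block FH0B: Fourier expansions at all cusps, holomorphic forms
-/

set_option autoImplicit false
set_option linter.unusedSectionVars false

namespace Pool.Agent.JO

open Complex MeasureTheory Filter Topology
open UpperHalfPlane hiding I
open scoped MatrixGroups ComplexConjugate ModularForm Manifold

theorem fhz_juI_gg (z : ℍ) : juI (gg z 0) = 1 := by
  have hs : 0 < √z.im := Real.sqrt_pos.2 z.im_pos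
  have h1 : jI (gg z 0) = (((√z.im)⁻¹ : ℝ) : ℂ) := by
    rw [jI]
    simp [gg]
  rw [juI, h1, Complex.norm_real, Real.norm_of_nonneg (by positivity), div_self]
  exact_mod_cast (inv_ne_zero hs.ne')

theorem fhz_liftK {N : ℕ} (k : ℕ) (f : ℍ → ℂ) (s : QN N) (z : ℍ) :
    liftK k (uhol k f) s (gg z 0) =
      ((z.im ^ ((k : ℝ) / 2) : ℝ) : ℂ) * (f ∣[(k : ℤ)] (lft s)⁻¹) z := by
  rw [liftK, ← hk_toR_inv, mul_smul, gg_smul_I_pr, hk_toR_smul, fhz_uhol, juI_mul,
    gg_smul_I_pr, fhz_juI_gg, mul_one]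
  have h := pow_ne_zero k (hkju_ne (toR (lft s)⁻¹) z)
  field_simp

theorem hasExp_hol_pr {N k : ℕ} [NeZero N] {χ : DirichletCharacter ℂ N}
    {f : CuspForm (CongruenceSubgroup.Gamma1 N) (k : ℤ)} {lam : ℕ → ℂ} (hk : 1 ≤ k)
    (h : IsHolEigenform N k χ f lam) :
    HasExp (N := N) (Whol k) (fun _ => 0) (liftK k (uhol k f)) := by
  intro s
  set F : ℍ → ℂ := (f : ℍ → ℂ) ∣[(k : ℤ)] (lft s)⁻¹ with hF
  have hN : (0 : ℝ) < (N : ℝ) := Nat.cast_pos.2 (Nat.pos_of_ne_zero (NeZero.ne N))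
  have hper := fhz_per h (lft s)⁻¹
  have hmd := fhz_mdiff f (lft s)⁻¹
  have hz := fhz_zero f (lft s)⁻¹
  set a : ℕ → ℂ := fun m => (UpperHalfPlane.qExpansion (N : ℝ) F).coeff m with ha
  have ha0 : a 0 = 0 := by
    rw [ha]
    simp only
    rw [UpperHalfPlane.qExpansion_coeff_zero hN
      (UpperHalfPlane.analyticAt_cuspFunction_zero hN hper hmd hz.isBoundedAtImInfty) hper]
    exact hz.valueAtInfty_eq_zero
  have hsum : ∀ z : ℍ, HasSum (fun m : ℕ => a m • Function.Periodic.qParam (N : ℝ) z ^ m) (F z) :=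
    fun z => UpperHalfPlane.hasSum_qExpansion hN hper hmd hz.isBoundedAtImInfty z
  set r : ℤ → ℂ := fun n => if 0 < n then
    a n.toNat * ((((n : ℝ) / N) ^ ((k : ℝ) / 2) : ℝ) : ℂ)⁻¹ else 0 with hr
  have hterm : ∀ z : ℍ, ∀ m : ℕ,
      r (m : ℤ) * (if 0 < (m : ℤ) then Whol k (|((m : ℤ) : ℝ)| * z.im / N) else 0) *
        cexp (2 * Real.pi * I * ((m : ℤ) * z.re / N : ℝ)) =
      ((z.im ^ ((k : ℝ) / 2) : ℝ) : ℂ) * (a m • Function.Periodic.qParam (N : ℝ) z ^ m) := by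
    intro z m
    rcases Nat.eq_zero_or_pos m with rfl | hm
    · simp [hr, ha0]
    have hm1 : 0 < (m : ℤ) := by exact_mod_cast hm
    have hm2 : (0 : ℝ) < (m : ℝ) := by exact_mod_cast hm
    rw [if_pos hm1, hr]
    simp only
    rw [if_pos hm1, Int.toNat_natCast, Int.cast_natCast, abs_of_pos hm2, Whol, smul_eq_mul]
    have e1 : ((m : ℝ) * z.im / N) ^ ((k : ℝ) / 2) =
        ((m : ℝ) / N) ^ ((k : ℝ) / 2) * z.im ^ ((k : ℝ) / 2) := by
      rw [← Real.mul_rpow (by positivity) z.im_pos.le]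
      congr 1
      ring
    have e2 : Function.Periodic.qParam (N : ℝ) z ^ m =
        ((Real.exp (-2 * Real.pi * ((m : ℝ) * z.im / N)) : ℝ) : ℂ) *
          cexp (2 * Real.pi * I * ((m * z.re / N : ℝ) : ℂ)) := by
      have hNC : (N : ℂ) ≠ 0 := by exact_mod_cast hN.ne'
      have hzz : (z : ℂ) = (z.re : ℂ) + (z.im : ℂ) * I := by
        apply Complex.ext <;> simp
      rw [Function.Periodic.qParam, ← Complex.exp_nat_mul, Complex.ofReal_exp, ← Complex.exp_add]
      congr 1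
      rw [hzz]
      push_cast
      field_simp
      linear_combination (m : ℂ) * (z.im : ℂ) * Complex.I_sq
    rw [e1, e2]
    have e3 : ((((m : ℝ) / N) ^ ((k : ℝ) / 2) : ℝ) : ℂ) ≠ 0 := by
      have : 0 < ((m : ℝ) / N) ^ ((k : ℝ) / 2) := Real.rpow_pos_of_pos (by positivity) _
      exact_mod_cast this.ne'
    rw [Complex.ofReal_mul, Complex.ofReal_mul]
    field_simp
  have hzero : ∀ n : ℤ, n ∉ Set.range (Nat.cast : ℕ → ℤ) → r n = 0 := by
    intro n hn
    rw [hr]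
    simp only
    rw [if_neg]
    intro h0
    exact hn ⟨n.toNat, Int.toNat_of_nonneg h0.le⟩
  have hS : ∀ z : ℍ, HasSum (fun n : ℤ => r n *
      (if 0 < n then Whol k (|(n : ℝ)| * z.im / N) else 0) *
        cexp (2 * Real.pi * I * (n * z.re / N : ℝ)))
      (((z.im ^ ((k : ℝ) / 2) : ℝ) : ℂ) * F z) := by
    intro z
    rw [← (Nat.cast_injective (R := ℤ)).hasSum_iff]
    · refine ((hsum z).mul_left ((z.im ^ ((k : ℝ) / 2) : ℝ) : ℂ)).congr_fun ?_
      intro m
      exact hterm z m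
    · intro n hn
      rw [hzero n hn, zero_mul, zero_mul]
  refine ⟨r, by simp [hr], ?_, ?_⟩
  · intro y hy
    have h1 := (hS ⟨y * I, by simpa using hy⟩).summable.norm
    refine h1.congr fun n => ?_
    have e4 : (⟨y * I, by simpa using hy⟩ : ℍ).im = y := by
      show ((y : ℂ) * I).im = y
      simp
    rw [norm_mul _ (cexp _), e4]
    have e5 : ‖cexp (2 * Real.pi * I *
        (((n : ℝ) * (⟨y * I, by simpa using hy⟩ : ℍ).re / N : ℝ) : ℂ))‖ = 1 := by
      have : 2 * (Real.pi : ℂ) * I * (((n : ℝ) * (⟨y * I, by simpa using hy⟩ : ℍ).re / N : ℝ) : ℂ) =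
        ((2 * Real.pi * ((n : ℝ) * (⟨y * I, by simpa using hy⟩ : ℍ).re / N) : ℝ) : ℂ) * I := by
        push_cast
        ring
      rw [this, Complex.norm_exp_ofReal_mul_I]
    rw [e5, mul_one]
  · intro z
    rw [fhz_liftK]
    exact (hS z).tsum_eq.symm

end Pool.Agent.JO
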