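import Pool.Agent.Lib_helper97.JO.FH0A
import Pool.Agent.Lib_helper97.JO.FH0B

/-!
# Project JO (MP_f4574f_nt), block LSQ: `∑_{n ≤ x} |λ(n)|² ≤ C x`
-/

set_option autoImplicit false

namespace Pool.Agent.JO

open Complex MeasureTheory Filter Topology
open UpperHalfPlane hiding I
open scoped MatrixGroups ComplexConjugate ModularForm Manifold

/-- Bessel's inequality for an absolutely convergent bounded Fourier series -/
theorem lsq_bessel {a : ℤ → ℂ} (ha : Summable fun n => ‖a n‖) {B : ℝ} (hB0 : 0 ≤ B)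
    (hB : ∀ t : ℝ, ‖∑' n : ℤ, a n * cexp (2 * Real.pi * I * (n * t : ℝ))‖ ≤ B) (S : Finset ℤ) :
    ∑ n ∈ S, ‖a n‖ ^ 2 ≤ B ^ 2 := by
  have hT : Fact ((0 : ℝ) < 1) := ⟨one_pos⟩
  have hsum : Summable fun n : ℤ => a n • (fourier n : C(AddCircle (1 : ℝ), ℂ)) := by
    refine Summable.of_norm (ha.congr fun n => ?_)
    rw [norm_smul, fourier_norm, mul_one]
  set g : C(AddCircle (1 : ℝ), ℂ) := ∑' n : ℤ, a n • (fourier n : C(AddCircle (1 : ℝ), ℂ)) with hg
  have hgs : HasSum (fun n : ℤ => a n • (fourier n : C(AddCircle (1 : ℝ), ℂ))) g := hsum.hasSum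
  -- the values
  have hval : ∀ x : AddCircle (1 : ℝ), ‖g x‖ ≤ B := by
    intro x
    induction x using QuotientAddGroup.induction_on with
    | H t =>
      have h1 := hgs.mapL (ContinuousMap.evalCLM ℂ ((t : ℝ) : AddCircle (1 : ℝ)))
      have h2 : (ContinuousMap.evalCLM ℂ ((t : ℝ) : AddCircle (1 : ℝ))) g =
          ∑' n : ℤ, a n * cexp (2 * Real.pi * I * (n * t : ℝ)) := by
        rw [← h1.tsum_eq]
        refine tsum_congr fun n => ?_
        show a n * (fourier n ((t : ℝ) : AddCircle (1 : ℝ))) = _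
        rw [fourier_coe_apply]
        congr 2
        push_cast
        ring
      have h3 : g ((t : ℝ) : AddCircle (1 : ℝ)) =
          ∑' n : ℤ, a n * cexp (2 * Real.pi * I * (n * t : ℝ)) := h2
      show ‖g ((t : ℝ) : AddCircle (1 : ℝ))‖ ≤ B
      rw [h3]
      exact hB t
  have hnorm : ‖g‖ ≤ B := (ContinuousMap.norm_le _ hB0).2 hval
  set L := ContinuousMap.toLp (E := ℂ) 2 (AddCircle.haarAddCircle (T := (1 : ℝ))) ℂ with hL
  have hLn : ‖L g‖ ≤ B := by
    refine (L.le_opNorm g).trans ?_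
    have h1 : ‖L‖ ≤ 1 := by
      refine (ContinuousMap.toLp_norm_le (E := ℂ) (𝕜 := ℂ) (p := 2)
        (μ := AddCircle.haarAddCircle (T := (1 : ℝ)))).trans ?_
      simp [measureUnivNNReal]
    calc ‖L‖ * ‖g‖ ≤ 1 * B := mul_le_mul h1 hnorm (norm_nonneg _) zero_le_one
      _ = B := one_mul B
  have hLs : HasSum (fun n : ℤ => a n • fourierLp (T := (1 : ℝ)) 2 n) (L g) := by
    have h1 := hgs.mapL L
    refine h1.congr_fun fun n => ?_
    rw [map_smul]
  have hinner : ∀ n : ℤ, inner ℂ (fourierLp (T := (1 : ℝ)) 2 n) (L g) = a n := by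
    intro n
    have h1 := hLs.mapL (innerSL ℂ (fourierLp (T := (1 : ℝ)) 2 n))
    have h2 : ∀ k : ℤ, (innerSL ℂ (fourierLp (T := (1 : ℝ)) 2 n)) (a k • fourierLp (T := (1 : ℝ)) 2 k) =
        if k = n then a n else 0 := by
      intro k
      rw [innerSL_apply_apply, inner_smul_right, orthonormal_iff_ite.1 (orthonormal_fourier (T := (1 : ℝ))) n k]
      by_cases h : n = k
      · subst h
        simp
      · rw [if_neg h, if_neg (Ne.symm h), mul_zero]
    simp_rw [h2] at h1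
    exact h1.unique (hasSum_ite_eq n (a n))
  have hb := Orthonormal.sum_inner_products_le (L g) (orthonormal_fourier (T := (1 : ℝ))) (s := S)
  simp_rw [hinner] at hb
  exact hb.trans (pow_le_pow_left₀ (norm_nonneg _) hLn 2)

/-- a bounded function with a Fourier expansion: the second moment of the coefficients -/
theorem lam_sq_exp {u : ℍ → ℂ} {B : ℝ} (hB : ∀ z, ‖u z‖ ≤ B) {Wp Wm : ℝ → ℂ} {s : ℝ}
    (hs0 : 0 < s) (hW : Wp s ≠ 0) (hWc : ContinuousAt Wp s) {c : ℤ → ℂ}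
    (hs : ∀ y : ℝ, 0 < y → Summable fun n : ℤ =>
      ‖c n * (if 0 < n then Wp (|(n : ℝ)| * y) else Wm (|(n : ℝ)| * y))‖)
    (hu : ∀ z : ℍ, u z = ∑' n : ℤ, c n *
      (if 0 < n then Wp (|(n : ℝ)| * z.im) else Wm (|(n : ℝ)| * z.im)) *
        cexp (2 * Real.pi * I * (n * z.re : ℝ)))
    {lam : ℕ → ℂ} {K : ℝ} (hl : ∀ n : ℕ, 1 ≤ n → ‖lam n‖ ≤ K * √n * ‖c n‖) :
    ∃ C : ℝ, ∀ x : ℕ, ∑ n ∈ Finset.Icc 1 x, ‖lam n‖ ^ 2 ≤ C * x := by
  have hB0 : 0 ≤ B := (norm_nonneg _).trans (hB UpperHalfPlane.I)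
  -- the local lower bound
  set δ : ℝ := ‖Wp s‖ / 2 with hδ
  have hδ0 : 0 < δ := by
    have := norm_pos_iff.2 hW
    positivity
  obtain ⟨ep, hep0, hep⟩ : ∃ ep : ℝ, 0 < ep ∧ ∀ t : ℝ, |t - s| < ep → δ ≤ ‖Wp t‖ := by
    obtain ⟨ep, hep0, hep⟩ := Metric.continuousAt_iff.1 hWc.norm δ hδ0
    refine ⟨ep, hep0, fun t ht => ?_⟩
    have h1 := hep (show dist t s < ep by rwa [Real.dist_eq])
    rw [Real.dist_eq] at h1
    have h2 := abs_lt.1 h1
    rw [hδ] at h2 ⊢
    linarith [h2.1]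
  set ρ : ℝ := max (1 / 2) (1 - ep / (2 * s)) with hρ
  have hρ1 : ρ < 1 := by
    rw [hρ]
    apply max_lt (by norm_num)
    have : 0 < ep / (2 * s) := by positivity
    linarith
  have hρ0 : 0 < ρ := lt_of_lt_of_le (by norm_num) (le_max_left _ _)
  have hlow : ∀ t : ℝ, ρ * s < t → t ≤ s → δ ≤ ‖Wp t‖ := by
    intro t h1 h2
    apply hep
    rw [abs_sub_lt_iff]
    constructor
    · linarith
    · have h3 : (1 - ep / (2 * s)) * s ≤ ρ * s := mul_le_mul_of_nonneg_right (le_max_right _ _) hs0.le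
      have h4 : (1 - ep / (2 * s)) * s = s - ep / 2 := by field_simp
      rw [h4] at h3
      linarith
  -- Bessel at height `s / x`
  have hbes : ∀ x : ℕ, 1 ≤ x → ∀ S : Finset ℕ, (∀ n ∈ S, 1 ≤ n ∧ ρ * x < n ∧ n ≤ x) →
      ∑ n ∈ S, ‖c n‖ ^ 2 ≤ B ^ 2 / δ ^ 2 := by
    intro x hx S hS
    have hx0 : (0 : ℝ) < x := by exact_mod_cast hx
    set y : ℝ := s / x with hy
    have hy0 : 0 < y := div_pos hs0 hx0
    set a : ℤ → ℂ := fun n => c n * (if 0 < n then Wp (|(n : ℝ)| * y) else Wm (|(n : ℝ)| * y)) with ha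
    have h1 : ∀ t : ℝ, ‖∑' n : ℤ, a n * cexp (2 * Real.pi * I * (n * t : ℝ))‖ ≤ B := by
      intro t
      have hz : 0 < ((t : ℂ) + (y : ℂ) * I).im := by simpa using hy0
      have h2 := hu ⟨(t : ℂ) + (y : ℂ) * I, hz⟩
      have e1 : UpperHalfPlane.im ⟨(t : ℂ) + (y : ℂ) * I, hz⟩ = y := by
        show ((t : ℂ) + (y : ℂ) * I).im = y
        simp
      have e2 : UpperHalfPlane.re ⟨(t : ℂ) + (y : ℂ) * I, hz⟩ = t := by
        show ((t : ℂ) + (y : ℂ) * I).re = t
        simp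
      rw [e1, e2] at h2
      rw [ha]
      simp only
      rw [← h2]
      exact hB _
    have h3 := lsq_bessel (hs y hy0) hB0 h1 (S.map ⟨((↑) : ℕ → ℤ), Nat.cast_injective⟩)
    rw [Finset.sum_map] at h3
    rw [le_div_iff₀ (by positivity), Finset.sum_mul]
    refine le_trans (Finset.sum_le_sum fun n hn => ?_) h3
    obtain ⟨h4, h5, h6⟩ := hS n hn
    have hn0 : (0 : ℝ) < n := by exact_mod_cast h4
    show ‖c n‖ ^ 2 * δ ^ 2 ≤ ‖a ((n : ℕ) : ℤ)‖ ^ 2
    rw [ha]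
    simp only
    rw [if_pos (by exact_mod_cast h4), norm_mul, mul_pow, Int.cast_natCast, abs_of_pos hn0]
    apply mul_le_mul_of_nonneg_left _ (by positivity)
    apply pow_le_pow_left₀ hδ0.le
    have e3 : (n : ℝ) * y = (n / x) * s := by rw [hy]; ring
    apply hlow
    · rw [e3]
      apply mul_lt_mul_of_pos_right _ hs0
      rw [lt_div_iff₀ hx0]
      exact h5
    · rw [e3]
      have : (n : ℝ) / x ≤ 1 := by
        rw [div_le_one hx0]
        exact_mod_cast h6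
      calc (n : ℝ) / x * s ≤ 1 * s := mul_le_mul_of_nonneg_right this hs0.le
        _ = s := one_mul s
  -- the dyadic pieces
  set A : ℝ := K ^ 2 * (B ^ 2 / δ ^ 2) with hA
  have hA0 : 0 ≤ A := by positivity
  have hpiece : ∀ x : ℕ, 1 ≤ x → ∀ S : Finset ℕ, (∀ n ∈ S, 1 ≤ n ∧ ρ * x < n ∧ n ≤ x) →
      ∑ n ∈ S, ‖lam n‖ ^ 2 ≤ A * x := by
    intro x hx S hS
    have h1 : ∀ n ∈ S, ‖lam n‖ ^ 2 ≤ (K ^ 2 * x) * ‖c n‖ ^ 2 := by
      intro n hn
      obtain ⟨h4, h5, h6⟩ := hS n hn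
      have h7 := pow_le_pow_left₀ (norm_nonneg _) (hl n h4) 2
      rw [mul_pow, mul_pow, Real.sq_sqrt (Nat.cast_nonneg n)] at h7
      refine h7.trans (mul_le_mul_of_nonneg_right ?_ (by positivity))
      exact mul_le_mul_of_nonneg_left (by exact_mod_cast h6) (by positivity)
    calc ∑ n ∈ S, ‖lam n‖ ^ 2 ≤ ∑ n ∈ S, (K ^ 2 * x) * ‖c n‖ ^ 2 := Finset.sum_le_sum h1
      _ = (K ^ 2 * x) * ∑ n ∈ S, ‖c n‖ ^ 2 := by rw [Finset.mul_sum]
      _ ≤ (K ^ 2 * x) * (B ^ 2 / δ ^ 2) :=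
          mul_le_mul_of_nonneg_left (hbes x hx S hS) (by positivity)
      _ = A * x := by rw [hA]; ring
  -- induction
  have h1ρ : 0 < 1 - ρ := by linarith
  refine ⟨A / (1 - ρ), fun x => ?_⟩
  induction x using Nat.strong_induction_on with
  | _ x ih =>
    rcases Nat.eq_zero_or_pos x with rfl | hx
    · simp
    have hx0 : (0 : ℝ) < x := by exact_mod_cast hx
    set x' : ℕ := ⌊ρ * x⌋₊ with hx'
    have h1 : (x' : ℝ) ≤ ρ * x := Nat.floor_le (by positivity)
    have h2 : x' < x := by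
      have : (x' : ℝ) < x := by nlinarith
      exact_mod_cast this
    have h3 : Finset.Icc 1 x = Finset.Icc 1 x' ∪ Finset.Ioc x' x := by
      ext n
      simp only [Finset.mem_Icc, Finset.mem_union, Finset.mem_Ioc]
      omega
    have h4 : Disjoint (Finset.Icc 1 x') (Finset.Ioc x' x) := by
      rw [Finset.disjoint_left]
      intro n hn hn'
      rw [Finset.mem_Icc] at hn
      rw [Finset.mem_Ioc] at hn'
      omega
    rw [h3, Finset.sum_union h4]
    have h5 := hpiece x hx (Finset.Ioc x' x) (by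
      intro n hn
      rw [Finset.mem_Ioc] at hn
      refine ⟨by omega, ?_, hn.2⟩
      exact (Nat.floor_lt (by positivity)).1 hn.1)
    have h6 := ih x' h2
    have h7 : A / (1 - ρ) * x' ≤ A / (1 - ρ) * (ρ * x) :=
      mul_le_mul_of_nonneg_left h1 (by positivity)
    have h8 : A / (1 - ρ) * (ρ * x) + A * x = A / (1 - ρ) * x := by
      field_simp
      ring
    linarith

/-- `u` is bounded -/
theorem lsq_bdd {N k : ℕ} {χ : DirichletCharacter ℂ N} {lam : ℕ → ℂ} {u : ℍ → ℂ}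
    (hu : WForm N χ k lam u) : ∃ B : ℝ, ∀ z, ‖u z‖ ≤ B := by
  obtain ⟨C, c, hc, h⟩ := hu.decay
  refine ⟨|C|, fun z => ?_⟩
  obtain ⟨γ, hγ⟩ := ModularGroup.exists_smul_mem_fd z
  have h1 : 1 / 2 ≤ (γ • z).im := by
    have h2 := ModularGroup.three_le_four_mul_im_sq_of_mem_fd hγ
    have h3 := (γ • z).im_pos
    nlinarith
  have h4 := h γ⁻¹ (γ • z) h1
  rw [inv_smul_smul] at h4
  refine h4.trans ?_
  have h5 : Real.exp (-c * (γ • z).im) ≤ 1 := by
    rw [Real.exp_le_one_iff]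
    have := (γ • z).im_pos
    nlinarith
  calc C * Real.exp (-c * (γ • z).im) ≤ |C| * Real.exp (-c * (γ • z).im) :=
        mul_le_mul_of_nonneg_right (le_abs_self C) (Real.exp_pos _).le
    _ ≤ |C| * 1 := mul_le_mul_of_nonneg_left h5 (abs_nonneg C)
    _ = |C| := mul_one _

theorem lam_sq_hol {N k : ℕ} [NeZero N] {χ : DirichletCharacter ℂ N}
    {f : CuspForm (CongruenceSubgroup.Gamma1 N) (k : ℤ)} {lam : ℕ → ℂ} (hk : 1 ≤ k)
    (h : IsHolEigenform N k χ f lam) :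
    ∃ C : ℝ, ∀ x : ℕ, ∑ n ∈ Finset.Icc 1 x, ‖lam n‖ ^ 2 ≤ C * x := by
  obtain ⟨B, hB⟩ := lsq_bdd (wform_hol_pr hk h)
  set c : ℤ → ℂ := fun n => if 0 < n then lam n.toNat * (((√(n : ℝ))⁻¹ : ℝ) : ℂ) else 0 with hc
  have hcont : Continuous (Whol k) := by
    refine Complex.continuous_ofReal.comp ?_
    refine Continuous.mul ?_ (by fun_prop)
    exact continuous_id.rpow_const fun y => Or.inr (by positivity)
  -- the terms
  have hterm : ∀ (z : ℍ) (m : ℕ), c (m : ℤ) *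
      (if 0 < (m : ℤ) then Whol k (|((m : ℤ) : ℝ)| * z.im) else 0) *
        cexp (2 * Real.pi * I * (((m : ℤ) : ℝ) * z.re : ℝ)) =
      ((z.im ^ ((k : ℝ) / 2) : ℝ) : ℂ) * (fhzc k lam m * fhzE ((m : ℂ) * z)) := by
    intro z m
    rcases Nat.eq_zero_or_pos m with rfl | hm
    · simp [hc, fhzc]
    have hm1 : 0 < (m : ℤ) := by exact_mod_cast hm
    have hm2 : (0 : ℝ) < (m : ℝ) := by exact_mod_cast hm
    have hy := z.im_pos
    rw [if_pos hm1, hc]
    simp only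
    rw [if_pos hm1, Int.toNat_natCast, Int.cast_natCast, abs_of_pos hm2, Whol, fhzc,
      if_neg hm.ne', fhzE]
    have e1 : ((m : ℝ) * z.im) ^ ((k : ℝ) / 2) =
        (m : ℝ) ^ (((k : ℝ) - 1) / 2) * √m * z.im ^ ((k : ℝ) / 2) := by
      rw [Real.mul_rpow hm2.le hy.le, Real.sqrt_eq_rpow, ← Real.rpow_add hm2]
      congr 2
      ring
    have e2 : cexp (2 * Real.pi * I * ((m : ℂ) * z)) =
        ((Real.exp (-2 * Real.pi * ((m : ℝ) * z.im)) : ℝ) : ℂ) *
          cexp (2 * Real.pi * I * ((m * z.re : ℝ) : ℂ)) := by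
      have hzz : (z : ℂ) = (z.re : ℂ) + (z.im : ℂ) * I := by
        apply Complex.ext <;> simp
      rw [Complex.ofReal_exp, ← Complex.exp_add]
      congr 1
      rw [hzz]
      push_cast
      linear_combination 2 * Real.pi * (m : ℂ) * (z.im : ℂ) * Complex.I_sq
    have hsq : ((√(m : ℝ) : ℝ) : ℂ) ≠ 0 := by exact_mod_cast (Real.sqrt_pos.2 hm2).ne'
    rw [e1, e2]
    push_cast
    field_simp
  have hzero : ∀ n : ℤ, n ∉ Set.range (Nat.cast : ℕ → ℤ) → c n = 0 := by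
    intro n hn
    rw [hc]
    simp only
    rw [if_neg]
    intro h0
    exact hn ⟨n.toNat, Int.toNat_of_nonneg h0.le⟩
  have hS : ∀ z : ℍ, HasSum (fun n : ℤ => c n *
      (if 0 < n then Whol k (|(n : ℝ)| * z.im) else 0) *
        cexp (2 * Real.pi * I * (n * z.re : ℝ))) (uhol k f z) := by
    intro z
    rw [← (Nat.cast_injective (R := ℤ)).hasSum_iff]
    · refine ((fhz_hasSum h z).mul_left ((z.im ^ ((k : ℝ) / 2) : ℝ) : ℂ)).congr_fun ?_
      intro m
      exact hterm z m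
    · intro n hn
      rw [hzero n hn, zero_mul, zero_mul]
  refine lam_sq_exp (u := uhol k f) hB (Wp := Whol k) (Wm := fun _ => 0) (s := 1) one_pos ?_
    hcont.continuousAt (c := c) ?_ (fun z => (hS z).tsum_eq.symm) (K := 1) ?_
  · rw [Whol]
    have : (0 : ℝ) < (1 : ℝ) ^ ((k : ℝ) / 2) * Real.exp (-2 * Real.pi * 1) := by positivity
    exact_mod_cast this.ne'
  · intro y hy
    have hz : 0 < ((y : ℂ) * I).im := by simpa using hy
    have h1 := (hS ⟨(y : ℂ) * I, hz⟩).summable.norm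
    refine h1.congr fun n => ?_
    have e1 : UpperHalfPlane.im ⟨(y : ℂ) * I, hz⟩ = y := by
      show ((y : ℂ) * I).im = y
      simp
    have e2 : UpperHalfPlane.re ⟨(y : ℂ) * I, hz⟩ = 0 := by
      show ((y : ℂ) * I).re = 0
      simp
    rw [norm_mul _ (cexp _), e1, e2]
    simp
  · intro n hn
    have hn0 : (0 : ℝ) < n := by exact_mod_cast hn
    have hsq : 0 < √(n : ℝ) := Real.sqrt_pos.2 hn0
    rw [hc]
    simp only
    rw [if_pos (by exact_mod_cast hn), Int.toNat_natCast, Int.cast_natCast, norm_mul,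
      Complex.norm_real, Real.norm_of_nonneg (by positivity)]
    apply le_of_eq
    field_simp

end Pool.Agent.JO
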