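import Pool.Agent.Lib_helper97.JO.HK
import Pool.Agent.Lib_helper97.JO.LSQ

/-! Project JO: the statements of `WantedFH0` of helper84, proved. -/

set_option autoImplicit false

namespace Pool.Agent.JO

open Complex MeasureTheory Filter Topology
open UpperHalfPlane hiding I
open scoped MatrixGroups ComplexConjugate

theorem wform_hol {N k : ℕ} [NeZero N] {χ : DirichletCharacter ℂ N}
    {f : CuspForm (CongruenceSubgroup.Gamma1 N) (k : ℤ)} {lam : ℕ → ℂ} (hk : 1 ≤ k)
    (h : IsHolEigenform N k χ f lam) : WForm N χ k lam (uhol k f) := wform_hol_pr hk h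

theorem hasExp_hol {N k : ℕ} [NeZero N] {χ : DirichletCharacter ℂ N}
    {f : CuspForm (CongruenceSubgroup.Gamma1 N) (k : ℤ)} {lam : ℕ → ℂ} (hk : 1 ≤ k)
    (h : IsHolEigenform N k χ f lam) :
    HasExp (N := N) (Whol k) (fun _ => 0) (liftK k (uhol k f)) := hasExp_hol_pr hk h

end Pool.Agent.JO
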