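import Pool.Agent.Lib_helper84.JO.Form

/-! Project JO: definitions of the form interface for holomorphic forms (statement of helper84). -/

set_option autoImplicit false

namespace Pool.Agent.JO

open Complex MeasureTheory Filter Topology
open UpperHalfPlane hiding I
open scoped MatrixGroups ComplexConjugate

/-- `u(z) = y^(k/2) f(z)` -/
noncomputable def uhol (k : ℕ) (f : ℍ → ℂ) (z : ℍ) : ℂ := ((z.im ^ ((k : ℝ) / 2) : ℝ) : ℂ) * f z

/-- the Whittaker function of holomorphic forms, `y^(k/2) e^(-2πy)` -/
noncomputable def Whol (k : ℕ) (y : ℝ) : ℂ := ((y ^ ((k : ℝ) / 2) * Real.exp (-2 * Real.pi * y) : ℝ) : ℂ)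

end Pool.Agent.JO
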