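import Pool.Agent.Lib_helper97.JO.HKC
import Pool.Agent.Lib_helper97.JO.FHD

/-!
# Project JO (MP_f4574f_nt), blocks FH0A, FH0B, common part: `f ∣[k] γ`
-/

set_option autoImplicit false
set_option linter.unusedSectionVars false

namespace Pool.Agent.JO

open Complex MeasureTheory Filter Topology
open UpperHalfPlane hiding I
open scoped MatrixGroups ComplexConjugate ModularForm Manifold

variable {N k : ℕ} [NeZero N] {χ : DirichletCharacter ℂ N}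
    {f : CuspForm (CongruenceSubgroup.Gamma1 N) (k : ℤ)} {lam : ℕ → ℂ}

theorem fhz_red {δ : SL(2, ℤ)} (hδ : red N δ = 1) :
    (N : ℤ) ∣ δ 1 0 ∧ ((δ 1 1 : ℤ) : ZMod N) = 1 := by
  constructor
  · rw [← ZMod.intCast_zmod_eq_zero_iff_dvd, ← hk_red_apply, hδ]
    rfl
  · rw [← hk_red_apply, hδ]
    rfl

theorem fhz_slash (h : IsHolEigenform N k χ f lam) {δ : SL(2, ℤ)} (hδ : red N δ = 1) :
    ((f : ℍ → ℂ) ∣[(k : ℤ)] δ) = f := by
  obtain ⟨h1, h2⟩ := fhz_red hδ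
  funext z
  rw [ModularForm.SL_slash_apply, h.nebentypus δ h1, h2, map_one, one_mul, zpow_neg, zpow_natCast]
  have h3 : (denom δ z) ^ k ≠ 0 := pow_ne_zero k (denom_ne_zero _ _)
  field_simp

theorem fhz_per_smul (h : IsHolEigenform N k χ f lam) (γ : SL(2, ℤ)) (z : ℍ) :
    ((f : ℍ → ℂ) ∣[(k : ℤ)] γ) (ModularGroup.T ^ (N : ℤ) • z) =
      ((f : ℍ → ℂ) ∣[(k : ℤ)] γ) z := by
  have hT : red N (ModularGroup.T ^ (N : ℤ)) = 1 := by
    ext i j
    rw [hk_red_apply, ModularGroup.coe_T_zpow]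
    fin_cases i <;> fin_cases j <;> simp
  have h1 : red N (γ * ModularGroup.T ^ (N : ℤ) * γ⁻¹) = 1 := by
    rw [hk_red_mul, hk_red_mul, hT, mul_one, ← hk_red_mul, mul_inv_cancel, hk_red_one]
  have h2 := fhz_slash h h1
  have h3 : ((f : ℍ → ℂ) ∣[(k : ℤ)] γ) ∣[(k : ℤ)] (ModularGroup.T ^ (N : ℤ)) =
      ((f : ℍ → ℂ) ∣[(k : ℤ)] γ) := by
    conv_rhs => rw [← h2]
    rw [← SlashAction.slash_mul, ← SlashAction.slash_mul, inv_mul_cancel_right]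
  have h4 := congrFun h3 z
  rw [ModularForm.SL_slash_apply] at h4
  have h5 : denom ((ModularGroup.T ^ (N : ℤ) : SL(2, ℤ)) : GL (Fin 2) ℝ) z = 1 := by
    rw [hk_denom, hkj, hk_toR_apply, hk_toR_apply, ModularGroup.coe_T_zpow]
    simp
  rw [h5, one_zpow, mul_one] at h4
  exact h4

theorem fhz_per (h : IsHolEigenform N k χ f lam) (γ : SL(2, ℤ)) :
    Function.Periodic (((f : ℍ → ℂ) ∣[(k : ℤ)] γ) ∘ ofComplex) ((N : ℝ) : ℂ) := by
  intro w
  by_cases hw : 0 < w.im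
  · have hw' : 0 < (w + ((N : ℝ) : ℂ)).im := by simpa using hw
    rw [Function.comp_apply, Function.comp_apply, ofComplex_apply_of_im_pos hw',
      ofComplex_apply_of_im_pos hw, ← fhz_per_smul h γ ⟨w, hw⟩]
    refine congrArg ((f : ℍ → ℂ) ∣[(k : ℤ)] γ) (UpperHalfPlane.ext ?_)
    rw [UpperHalfPlane.coe_specialLinearGroup_apply, ModularGroup.coe_T_zpow]
    simp
  · have hw' : (w + ((N : ℝ) : ℂ)).im ≤ 0 := by simpa using hw
    rw [Function.comp_apply, Function.comp_apply, ofComplex_apply_of_im_nonpos hw',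
      ofComplex_apply_of_im_nonpos (not_lt.1 hw)]

theorem fhz_mdiff (f : CuspForm (CongruenceSubgroup.Gamma1 N) (k : ℤ)) (γ : SL(2, ℤ)) :
    MDiff ((f : ℍ → ℂ) ∣[(k : ℤ)] γ) :=
  (CuspFormClass.holo f).slash k _

theorem fhz_zero (f : CuspForm (CongruenceSubgroup.Gamma1 N) (k : ℤ)) (γ : SL(2, ℤ)) :
    IsZeroAtImInfty ((f : ℍ → ℂ) ∣[(k : ℤ)] γ) :=
  CuspFormClass.zero_at_infty_slash f γ

theorem fhz_decay (h : IsHolEigenform N k χ f lam) (γ : SL(2, ℤ)) :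
    ((f : ℍ → ℂ) ∣[(k : ℤ)] γ) =O[atImInfty] fun τ ↦ Real.exp (-2 * Real.pi * τ.im / (N : ℝ)) :=
  (fhz_zero f γ).exp_decay_atImInfty (Nat.cast_pos.2 (Nat.pos_of_ne_zero (NeZero.ne N)))
    (fhz_per h γ) (fhz_mdiff f γ) (fhz_zero f γ).isBoundedAtImInfty

/-- the transformation of `u = y^(k/2) f` -/
theorem fhz_uhol (f : ℍ → ℂ) (γ : SL(2, ℤ)) (z : ℍ) :
    uhol k f (γ • z) = hkju (toR γ) z ^ k *
      (((z.im ^ ((k : ℝ) / 2) : ℝ) : ℂ) * (f ∣[(k : ℤ)] γ) z) := by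
  have hj : denom γ z ≠ 0 := denom_ne_zero _ _
  have hn : 0 < ‖denom γ z‖ := norm_pos_iff.2 hj
  have h1 : (γ • z).im = z.im / ‖denom γ z‖ ^ 2 := by
    rw [ModularGroup.im_smul_eq_div_normSq, Complex.normSq_eq_norm_sq]
  have h2 : (γ • z).im ^ ((k : ℝ) / 2) = z.im ^ ((k : ℝ) / 2) / ‖denom γ z‖ ^ k := by
    rw [h1, Real.div_rpow z.im_pos.le (by positivity), ← Real.rpow_natCast (‖denom γ z‖) 2,
      ← Real.rpow_mul hn.le]
    have : ((2 : ℕ) : ℝ) * ((k : ℝ) / 2) = (k : ℝ) := by push_cast; ring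
    rw [this, Real.rpow_natCast]
  rw [uhol, h2, ModularForm.SL_slash_apply, hkju, ← hk_denom, zpow_neg, zpow_natCast, div_pow]
  have h3 : (denom γ z) ^ k ≠ 0 := pow_ne_zero k hj
  have h4 : ((‖denom γ z‖ : ℝ) : ℂ) ^ k ≠ 0 := pow_ne_zero k (by exact_mod_cast hn.ne')
  push_cast
  field_simp

end Pool.Agent.JO
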