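import Pool.Agent.Lib_helper97.JO.FH0

/-!
# Project JO (MP_f4574f_nt), block FH0A: the form interface for holomorphic forms
-/

set_option autoImplicit false
set_option linter.unusedSectionVars false

namespace Pool.Agent.JO

open Complex MeasureTheory Filter Topology
open UpperHalfPlane hiding I
open scoped MatrixGroups ComplexConjugate ModularForm Manifold

variable {N k : ℕ} [NeZero N] {χ : DirichletCharacter ℂ N}
    {f : CuspForm (CongruenceSubgroup.Gamma1 N) (k : ℤ)} {lam : ℕ → ℂ}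

/-! ### decay -/

theorem fhz_b1 (h : IsHolEigenform N k χ f lam) (γ : SL(2, ℤ)) : ∃ C : ℝ, 0 ≤ C ∧ ∀ z : ℍ,
    1 / 2 ≤ z.im → ‖((f : ℍ → ℂ) ∣[(k : ℤ)] γ) z‖ ≤ C * Real.exp (-2 * Real.pi * z.im / (N : ℝ)) := by
  set F : ℍ → ℂ := (f : ℍ → ℂ) ∣[(k : ℤ)] γ with hF
  have hN : (0 : ℝ) < (N : ℝ) := Nat.cast_pos.2 (Nat.pos_of_ne_zero (NeZero.ne N))
  obtain ⟨C₁, hC₁, h1⟩ := (fhz_decay h γ).exists_pos
  rw [Asymptotics.IsBigOWith, Filter.Eventually, UpperHalfPlane.atImInfty_mem] at h1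
  obtain ⟨A, hA⟩ := h1
  have hper := fhz_per h γ
  have hcont : ContinuousOn (F ∘ ofComplex) {z : ℂ | 0 < z.im} :=
    (UpperHalfPlane.mdifferentiable_iff.1 (fhz_mdiff f γ)).continuousOn
  have hK : IsCompact (Set.Icc (0 : ℝ) N ×ℂ Set.Icc (1 / 2 : ℝ) A) :=
    isCompact_Icc.reProdIm isCompact_Icc
  have hsub : (Set.Icc (0 : ℝ) N ×ℂ Set.Icc (1 / 2 : ℝ) A) ⊆ {z : ℂ | 0 < z.im} := by
    intro z hz
    have := hz.2.1
    simp only [Set.mem_ofPred_eq]
    linarith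
  obtain ⟨M, hM⟩ := hK.exists_bound_of_continuousOn (hcont.mono hsub)
  refine ⟨C₁ + |M| * Real.exp (2 * Real.pi * |A| / N), by positivity, fun z hz => ?_⟩
  rcases le_or_gt A z.im with hAz | hAz
  · have h2 := hA z hAz
    simp only [Set.mem_ofPred_eq] at h2
    rw [Real.norm_of_nonneg (Real.exp_pos _).le] at h2
    refine h2.trans (mul_le_mul_of_nonneg_right ?_ (Real.exp_pos _).le)
    have : 0 ≤ |M| * Real.exp (2 * Real.pi * |A| / N) := by positivity
    linarith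
  · set n : ℤ := ⌊z.re / N⌋ with hn
    have h3 : (F ∘ ofComplex) ((z : ℂ) - n • ((N : ℝ) : ℂ)) = (F ∘ ofComplex) (z : ℂ) :=
      hper.sub_zsmul_eq n
    have h4 : ((z : ℂ) - n • ((N : ℝ) : ℂ)) ∈ (Set.Icc (0 : ℝ) N ×ℂ Set.Icc (1 / 2 : ℝ) A) := by
      have e1 : ((z : ℂ) - n • ((N : ℝ) : ℂ)).re = z.re - n * N := by simp
      have e2 : ((z : ℂ) - n • ((N : ℝ) : ℂ)).im = z.im := by simp
      have f1 := Int.floor_le (z.re / N)
      have f2 := Int.lt_floor_add_one (z.re / N)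
      rw [← hn, le_div_iff₀ hN] at f1
      rw [← hn, div_lt_iff₀ hN] at f2
      refine ⟨?_, ?_⟩
      · show ((z : ℂ) - n • ((N : ℝ) : ℂ)).re ∈ Set.Icc (0 : ℝ) N
        rw [e1]
        constructor <;> linarith
      · show ((z : ℂ) - n • ((N : ℝ) : ℂ)).im ∈ Set.Icc (1 / 2 : ℝ) A
        rw [e2]
        exact ⟨hz, hAz.le⟩
    have h5 := hM _ h4
    rw [h3, Function.comp_apply, ofComplex_apply] at h5
    have h6 : (1 : ℝ) ≤ Real.exp (2 * Real.pi * |A| / N) *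
        Real.exp (-2 * Real.pi * z.im / (N : ℝ)) := by
      rw [← Real.exp_add]
      apply Real.one_le_exp
      have : 2 * Real.pi * |A| / N + -2 * Real.pi * z.im / N = 2 * Real.pi * (|A| - z.im) / N := by
        ring
      rw [this]
      have h7 : 0 ≤ |A| - z.im := by linarith [le_abs_self A]
      positivity
    calc ‖F z‖ ≤ |M| * 1 := by rw [mul_one]; exact h5.trans (le_abs_self M)
      _ ≤ |M| * (Real.exp (2 * Real.pi * |A| / N) *
        Real.exp (-2 * Real.pi * z.im / (N : ℝ))) :=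
          mul_le_mul_of_nonneg_left h6 (abs_nonneg M)
      _ ≤ (C₁ + |M| * Real.exp (2 * Real.pi * |A| / N)) *
          Real.exp (-2 * Real.pi * z.im / (N : ℝ)) := by
          have : 0 ≤ C₁ * Real.exp (-2 * Real.pi * z.im / (N : ℝ)) := by positivity
          linarith

theorem fhz_pow {N : ℕ} (hN : (0 : ℝ) < (N : ℝ)) (k : ℕ) : ∃ C : ℝ, 0 ≤ C ∧ ∀ y : ℝ, 1 / 2 ≤ y →
    y ^ ((k : ℝ) / 2) * Real.exp (-2 * Real.pi * y / (N : ℝ)) ≤
      C * Real.exp (-(Real.pi / N) * y) := by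
  refine ⟨2 ^ k * (k.factorial * (N / Real.pi) ^ k), by positivity, fun y hy => ?_⟩
  have hy0 : 0 < y := by linarith
  have h1 : y ^ ((k : ℝ) / 2) ≤ 2 ^ k * y ^ k := by
    calc y ^ ((k : ℝ) / 2) ≤ (2 * y) ^ ((k : ℝ) / 2) :=
          Real.rpow_le_rpow hy0.le (by linarith) (by positivity)
      _ ≤ (2 * y) ^ (k : ℝ) := by
          apply Real.rpow_le_rpow_of_exponent_le (by linarith)
          have : (0 : ℝ) ≤ k := Nat.cast_nonneg k
          linarith
      _ = 2 ^ k * y ^ k := by rw [Real.rpow_natCast, mul_pow]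
  have h2 : y ^ k ≤ k.factorial * (N / Real.pi) ^ k * Real.exp ((Real.pi / N) * y) := by
    have h3 := Real.pow_div_factorial_le_exp ((Real.pi / N) * y) (by positivity) k
    rw [div_le_iff₀ (by positivity)] at h3
    have h4 : y ^ k = (N / Real.pi) ^ k * ((Real.pi / N) * y) ^ k := by
      rw [← mul_pow]
      congr 1
      have := Real.pi_pos
      field_simp
    rw [h4]
    calc (N / Real.pi) ^ k * ((Real.pi / N) * y) ^ k
        ≤ (N / Real.pi) ^ k * (Real.exp ((Real.pi / N) * y) * k.factorial) :=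
          mul_le_mul_of_nonneg_left h3 (by positivity)
      _ = _ := by ring
  have h5 : Real.exp (-2 * Real.pi * y / (N : ℝ)) =
      Real.exp (-(Real.pi / N) * y) * Real.exp (-(Real.pi / N) * y) := by
    rw [← Real.exp_add]
    congr 1
    ring
  have h6 : Real.exp ((Real.pi / N) * y) * Real.exp (-(Real.pi / N) * y) = 1 := by
    rw [← Real.exp_add]
    simp
  calc y ^ ((k : ℝ) / 2) * Real.exp (-2 * Real.pi * y / (N : ℝ))
      ≤ (2 ^ k * (k.factorial * (N / Real.pi) ^ k * Real.exp ((Real.pi / N) * y))) *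
        Real.exp (-2 * Real.pi * y / (N : ℝ)) := by
        apply mul_le_mul_of_nonneg_right _ (Real.exp_pos _).le
        exact h1.trans (mul_le_mul_of_nonneg_left h2 (by positivity))
    _ = (2 ^ k * (k.factorial * (N / Real.pi) ^ k)) *
        ((Real.exp ((Real.pi / N) * y) * Real.exp (-(Real.pi / N) * y)) *
          Real.exp (-(Real.pi / N) * y)) := by rw [h5]; ring
    _ = _ := by rw [h6, one_mul]

theorem fhz_slash_red (h : IsHolEigenform N k χ f lam) (γ : SL(2, ℤ)) :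
    ((f : ℍ → ℂ) ∣[(k : ℤ)] γ) = ((f : ℍ → ℂ) ∣[(k : ℤ)] (lft (red N γ))) := by
  have h1 : red N (γ * (lft (red N γ))⁻¹) = 1 := by
    rw [hk_red_mul, hk_red_inv, red_lft_pr, mul_inv_cancel]
  have h2 := fhz_slash h h1
  conv_rhs => rw [← h2]
  rw [← SlashAction.slash_mul, inv_mul_cancel_right]

theorem fhz_decay_all (h : IsHolEigenform N k χ f lam) :
    ∃ C c : ℝ, 0 < c ∧ ∀ (γ : SL(2, ℤ)) (z : ℍ), 1 / 2 ≤ z.im →
      ‖uhol k f (γ • z)‖ ≤ C * Real.exp (-c * z.im) := by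
  have hN : (0 : ℝ) < (N : ℝ) := Nat.cast_pos.2 (Nat.pos_of_ne_zero (NeZero.ne N))
  choose C₀ hC₀ hb using fun s : QN N => fhz_b1 h (lft s)
  obtain ⟨C₂, hC₂, hp⟩ := fhz_pow hN k
  refine ⟨(∑ s : QN N, C₀ s) * C₂, Real.pi / N, div_pos Real.pi_pos hN, fun γ z hz => ?_⟩
  have hy := z.im_pos
  rw [fhz_uhol, norm_mul, norm_pow, hkju_norm, one_pow, one_mul, norm_mul, Complex.norm_real,
    Real.norm_of_nonneg (Real.rpow_nonneg hy.le _), fhz_slash_red h γ]
  have h1 : C₀ (red N γ) ≤ ∑ s : QN N, C₀ s :=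
    Finset.single_le_sum (f := C₀) (fun s _ => hC₀ s) (Finset.mem_univ (red N γ))
  calc z.im ^ ((k : ℝ) / 2) * ‖((f : ℍ → ℂ) ∣[(k : ℤ)] (lft (red N γ))) z‖
      ≤ z.im ^ ((k : ℝ) / 2) * ((∑ s : QN N, C₀ s) * Real.exp (-2 * Real.pi * z.im / (N : ℝ))) := by
        apply mul_le_mul_of_nonneg_left _ (Real.rpow_nonneg hy.le _)
        exact (hb (red N γ) z hz).trans (mul_le_mul_of_nonneg_right h1 (Real.exp_pos _).le)
    _ = (∑ s : QN N, C₀ s) * (z.im ^ ((k : ℝ) / 2) * Real.exp (-2 * Real.pi * z.im / (N : ℝ))) := by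
        ring
    _ ≤ (∑ s : QN N, C₀ s) * (C₂ * Real.exp (-(Real.pi / N) * z.im)) :=
        mul_le_mul_of_nonneg_left (hp z.im hz) (Finset.sum_nonneg fun s _ => hC₀ s)
    _ = _ := by ring

/-! ### the Hecke relation -/

/-- `e(w)` -/
noncomputable def fhzE (w : ℂ) : ℂ := cexp (2 * Real.pi * I * w)

theorem fhzE_add (a b : ℂ) : fhzE (a + b) = fhzE a * fhzE b := by
  rw [fhzE, fhzE, fhzE, ← Complex.exp_add]
  congr 1
  ring

/-- the coefficients -/
noncomputable def fhzc (k : ℕ) (lam : ℕ → ℂ) (n : ℕ) : ℂ :=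
  if n = 0 then 0 else lam n * (((n : ℝ) ^ (((k : ℝ) - 1) / 2) : ℝ) : ℂ)

theorem fhz_hasSum (h : IsHolEigenform N k χ f lam) (z : ℍ) :
    HasSum (fun n : ℕ => fhzc k lam n * fhzE ((n : ℂ) * z)) (f z) := by
  have h1 := h.expansion z
  rw [← Nat.succ_injective.hasSum_iff]
  · refine h1.congr_fun ?_
    intro n
    rw [Function.comp_apply, fhzc, if_neg (Nat.succ_ne_zero n), fhzE, Nat.succ_eq_add_one]
    push_cast
    congr 2
    ring
  · intro n hn
    have : n = 0 := by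
      by_contra h0
      exact hn ⟨n - 1, Nat.succ_pred_eq_of_pos (Nat.pos_of_ne_zero h0)⟩
    rw [this, fhzc, if_pos rfl, zero_mul]

/-- the geometric sum -/
theorem fhz_geom {p : ℕ} (hp : 0 < p) (n : ℕ) :
    ∑ b ∈ Finset.range p, fhzE ((n : ℂ) * ((b : ℂ) / p)) = if p ∣ n then (p : ℂ) else 0 := by
  have hp' : (p : ℂ) ≠ 0 := by exact_mod_cast hp.ne'
  have hζ := Complex.isPrimitiveRoot_exp p hp.ne'
  have h1 : ∀ b : ℕ, fhzE ((n : ℂ) * ((b : ℂ) / p)) = ((cexp (2 * Real.pi * I / p)) ^ n) ^ b := by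
    intro b
    rw [fhzE, ← Complex.exp_nat_mul, ← Complex.exp_nat_mul]
    congr 1
    ring
  simp_rw [h1]
  split_ifs with hd
  · have : (cexp (2 * Real.pi * I / p)) ^ n = 1 := (hζ.pow_eq_one_iff_dvd n).2 hd
    rw [this]
    simp
  · have h2 : (cexp (2 * Real.pi * I / p)) ^ n ≠ 1 := fun h => hd ((hζ.pow_eq_one_iff_dvd n).1 h)
    rw [geom_sum_eq h2, ← pow_mul, mul_comm n p, pow_mul, hζ.pow_eq_one, one_pow, sub_self,
      zero_div]

theorem fhz_hecke1 (h : IsHolEigenform N k χ f lam) {p : ℕ} (hp : 0 < p) (z w : ℍ)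
    (hw : (w : ℂ) = p * z) :
    HasSum (fun m : ℕ => (if m ≠ 0 ∧ p ∣ m then
      χ (p : ZMod N) * lam (m / p) * (((m : ℝ) ^ (((k : ℝ) - 1) / 2) : ℝ) : ℂ) else 0) *
        fhzE ((m : ℂ) * z))
      (χ (p : ZMod N) * (((p : ℝ) ^ (((k : ℝ) - 1) / 2) : ℝ) : ℂ) * f w) := by
  have h1 := (fhz_hasSum h w).mul_left
    (χ (p : ZMod N) * (((p : ℝ) ^ (((k : ℝ) - 1) / 2) : ℝ) : ℂ))
  have hinj : Function.Injective (fun n : ℕ => p * n) := fun a b hab =>
    Nat.eq_of_mul_eq_mul_left hp hab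
  rw [← hinj.hasSum_iff]
  · refine h1.congr_fun ?_
    intro n
    rw [Function.comp_apply]
    rcases Nat.eq_zero_or_pos n with rfl | hn
    · simp [fhzc]
    · rw [if_pos ⟨(Nat.mul_pos hp hn).ne', Dvd.intro n rfl⟩, fhzc, if_neg hn.ne',
        Nat.mul_div_cancel_left n hp, hw]
      have e1 : (((p * n : ℕ) : ℝ) ^ (((k : ℝ) - 1) / 2)) =
          (p : ℝ) ^ (((k : ℝ) - 1) / 2) * (n : ℝ) ^ (((k : ℝ) - 1) / 2) := by
        push_cast
        exact Real.mul_rpow (Nat.cast_nonneg p) (Nat.cast_nonneg n)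
      have e2 : (((p * n : ℕ) : ℂ) * z) = (n : ℂ) * ((p : ℂ) * z) := by
        push_cast
        ring
      rw [e1, e2]
      push_cast
      ring
  · intro m hm
    rw [if_neg, zero_mul]
    rintro ⟨h2, n, rfl⟩
    exact hm ⟨n, rfl⟩

theorem fhz_hecke2 (h : IsHolEigenform N k χ f lam) {p : ℕ} (hp : 0 < p) (z : ℍ) (w : ℕ → ℍ)
    (hw : ∀ b : ℕ, (w b : ℂ) = (z + b) / p) :
    HasSum (fun m : ℕ => (if m ≠ 0 then
      lam (m * p) * (((m : ℝ) ^ (((k : ℝ) - 1) / 2) : ℝ) : ℂ) else 0) * fhzE ((m : ℂ) * z))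
      (((p : ℂ) * (((p : ℝ) ^ (((k : ℝ) - 1) / 2) : ℝ) : ℂ))⁻¹ *
        ∑ b ∈ Finset.range p, f (w b)) := by
  have hp' : (p : ℂ) ≠ 0 := by exact_mod_cast hp.ne'
  have hp2 : (0 : ℝ) < (p : ℝ) ^ (((k : ℝ) - 1) / 2) :=
    Real.rpow_pos_of_pos (by exact_mod_cast hp) _
  have hp3 : (((p : ℝ) ^ (((k : ℝ) - 1) / 2) : ℝ) : ℂ) ≠ 0 := by exact_mod_cast hp2.ne'
  have h1 : HasSum (fun n : ℕ => ∑ b ∈ Finset.range p, fhzc k lam n * fhzE ((n : ℂ) * w b))
      (∑ b ∈ Finset.range p, f (w b)) := hasSum_sum fun b _ => fhz_hasSum h (w b)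
  have h2 : ∀ n : ℕ, ∑ b ∈ Finset.range p, fhzc k lam n * fhzE ((n : ℂ) * w b) =
      fhzc k lam n * fhzE ((n : ℂ) * (z / p)) * (if p ∣ n then (p : ℂ) else 0) := by
    intro n
    rw [← fhz_geom hp n, Finset.mul_sum]
    refine Finset.sum_congr rfl fun b _ => ?_
    rw [hw b, mul_assoc, ← fhzE_add]
    congr 2
    ring
  simp_rw [h2] at h1
  have hinj : Function.Injective (fun n : ℕ => p * n) := fun a b hab =>
    Nat.eq_of_mul_eq_mul_left hp hab
  rw [← hinj.hasSum_iff] at h1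
  · refine (h1.mul_left (((p : ℂ) * (((p : ℝ) ^ (((k : ℝ) - 1) / 2) : ℝ) : ℂ))⁻¹)).congr_fun ?_
    intro m
    rw [Function.comp_apply, if_pos (Dvd.intro m rfl)]
    rcases Nat.eq_zero_or_pos m with rfl | hm
    · simp [fhzc]
    · rw [if_pos hm.ne', fhzc, if_neg (Nat.mul_pos hp hm).ne']
      have e1 : (((p * m : ℕ) : ℝ) ^ (((k : ℝ) - 1) / 2)) =
          (p : ℝ) ^ (((k : ℝ) - 1) / 2) * (m : ℝ) ^ (((k : ℝ) - 1) / 2) := by
        push_cast
        exact Real.mul_rpow (Nat.cast_nonneg p) (Nat.cast_nonneg m)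
      have e2 : (((p * m : ℕ) : ℂ) * ((z : ℂ) / p)) = (m : ℂ) * z := by
        push_cast
        field_simp
      rw [e1, e2, mul_comm m p, Complex.ofReal_mul]
      field_simp
  · intro m hm
    rw [if_neg, mul_zero]
    rintro ⟨n, rfl⟩
    exact hm ⟨n, rfl⟩

theorem fhz_hecke (h : IsHolEigenform N k χ f lam) {p : ℕ} (hp : p.Prime) (hpN : ¬ p ∣ N)
    (z v : ℍ) (hv : (v : ℂ) = p * z) (w : ℕ → ℍ) (hw : ∀ b : ℕ, (w b : ℂ) = (z + b) / p) :
    lam p * f z = χ (p : ZMod N) * (((p : ℝ) ^ (((k : ℝ) - 1) / 2) : ℝ) : ℂ) * f v +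
      ((p : ℂ) * (((p : ℝ) ^ (((k : ℝ) - 1) / 2) : ℝ) : ℂ))⁻¹ *
        ∑ b ∈ Finset.range p, f (w b) := by
  have h1 := (fhz_hecke1 h hp.pos z v hv).add (fhz_hecke2 h hp.pos z w hw)
  have h2 := (fhz_hasSum h z).mul_left (lam p)
  refine h2.unique (h1.congr_fun ?_)
  intro m
  rw [← add_mul, ← mul_assoc]
  congr 1
  rcases Nat.eq_zero_or_pos m with rfl | hm
  · simp [fhzc]
  · rw [fhzc, if_neg hm.ne', if_pos hm.ne', ← mul_assoc, h.hecke.mul p hp hpN m hm]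
    by_cases hd : p ∣ m
    · rw [if_pos hd, if_pos ⟨hm.ne', hd⟩]
      ring
    · rw [if_neg hd, if_neg fun h => hd h.2]
      ring

theorem wform_hol_pr {N k : ℕ} [NeZero N] {χ : DirichletCharacter ℂ N}
    {f : CuspForm (CongruenceSubgroup.Gamma1 N) (k : ℤ)} {lam : ℕ → ℂ} (hk : 1 ≤ k)
    (h : IsHolEigenform N k χ f lam) : WForm N χ k lam (uhol k f) := by
  refine ⟨?_, ?_, fhz_decay_all h, ?_⟩
  · have h1 : Continuous (f : ℍ → ℂ) := (CuspFormClass.holo f).continuous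
    have h2 : Continuous fun z : ℍ => ((z.im ^ ((k : ℝ) / 2) : ℝ) : ℂ) := by
      refine Complex.continuous_ofReal.comp ?_
      exact UpperHalfPlane.continuous_im.rpow_const fun z => Or.inl z.im_pos.ne'
    exact h2.mul h1
  · intro γ hγ z
    rw [fhz_uhol, ModularForm.SL_slash_apply, h.nebentypus γ hγ, uhol, zpow_neg, zpow_natCast]
    have h3 : (denom γ z) ^ k ≠ 0 := pow_ne_zero k (denom_ne_zero _ _)
    have h4 : hkju (toR γ) z = denom γ z / ‖denom γ z‖ := rfl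
    rw [← h4]
    field_simp
  · intro p hp hpN z
    have hp0 : (0 : ℝ) < (p : ℝ) := by exact_mod_cast hp.pos
    have hy := z.im_pos
    -- the points
    have hvim : 0 < ((p : ℂ) * z).im := by
      rw [← Complex.ofReal_natCast, Complex.im_ofReal_mul]
      exact mul_pos hp0 hy
    have hwim : ∀ b : ℕ, 0 < (((z : ℂ) + b) / p).im := by
      intro b
      rw [← Complex.ofReal_natCast p, Complex.div_ofReal_im, Complex.add_im, Complex.natCast_im,
        add_zero]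
      exact div_pos hy hp0
    have hH := fhz_hecke h hp hpN z ⟨(p : ℂ) * z, hvim⟩ rfl (fun b => ⟨((z : ℂ) + b) / p, hwim b⟩)
      fun b => rfl
    have hne : ((1, p) : ℕ × ℕ) ≠ (p, 1) := by
      intro h0
      have := congrArg Prod.fst h0
      exact hp.one_lt.ne this
    have hda : p.divisorsAntidiagonal = {(1, p), (p, 1)} := by
      ext ⟨a, b⟩
      rw [Nat.mem_divisorsAntidiagonal, Finset.mem_insert, Finset.mem_singleton, Prod.mk.injEq,
        Prod.mk.injEq]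
      constructor
      · rintro ⟨h1, -⟩
        rcases (Nat.dvd_prime hp).1 (Dvd.intro b h1) with ha | ha
        · left
          subst ha
          simpa using h1
        · right
          subst ha
          exact ⟨rfl, Nat.eq_of_mul_eq_mul_left hp.pos (by simpa using h1)⟩
      · rintro (⟨rfl, rfl⟩ | ⟨rfl, rfl⟩) <;> simp [hp.ne_zero]
    rw [heckeT, hda, Finset.sum_pair hne]
    simp only
    rw [Nat.cast_one, map_one, one_mul, Finset.sum_range_one]
    have e1 : ∀ b : ℕ, uhol k f (ofComplex ((((1 : ℕ) : ℂ) * z + b) / p)) =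
        (((z.im / p) ^ ((k : ℝ) / 2) : ℝ) : ℂ) * f ⟨((z : ℂ) + b) / p, hwim b⟩ := by
      intro b
      have e0 : (((1 : ℕ) : ℂ) * z + b) / p = ((z : ℂ) + b) / p := by
        rw [Nat.cast_one, one_mul]
      rw [e0, ofComplex_apply_of_im_pos (hwim b), uhol]
      congr 3
      show (((z : ℂ) + b) / p).im = z.im / p
      rw [← Complex.ofReal_natCast p, Complex.div_ofReal_im, Complex.add_im, Complex.natCast_im,
        add_zero]
      rfl
    have e2 : uhol k f (ofComplex (((p : ℂ) * z + ((0 : ℕ) : ℂ)) / ((1 : ℕ) : ℂ))) =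
        (((p * z.im) ^ ((k : ℝ) / 2) : ℝ) : ℂ) * f ⟨(p : ℂ) * z, hvim⟩ := by
      have e0 : ((p : ℂ) * z + ((0 : ℕ) : ℂ)) / ((1 : ℕ) : ℂ) = (p : ℂ) * z := by
        rw [Nat.cast_one, Nat.cast_zero, add_zero, div_one]
      rw [e0, ofComplex_apply_of_im_pos hvim, uhol]
      congr 3
      show ((p : ℂ) * z).im = p * z.im
      rw [← Complex.ofReal_natCast, Complex.im_ofReal_mul]
      rfl
    rw [Finset.sum_congr rfl fun b _ => e1 b, e2, ← Finset.mul_sum]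
    have hS : 0 < √(p : ℝ) := Real.sqrt_pos.2 hp0
    have hSS : √(p : ℝ) * √(p : ℝ) = p := Real.mul_self_sqrt hp0.le
    have hP : 0 < (p : ℝ) ^ (((k : ℝ) - 1) / 2) := Real.rpow_pos_of_pos hp0 _
    have hPS : (p : ℝ) ^ ((k : ℝ) / 2) = (p : ℝ) ^ (((k : ℝ) - 1) / 2) * √(p : ℝ) := by
      rw [Real.sqrt_eq_rpow, ← Real.rpow_add hp0]
      congr 1
      ring
    rw [Real.div_rpow hy.le hp0.le, Real.mul_rpow hp0.le hy.le, hPS, uhol]
    have hSC : ((√(p : ℝ) : ℝ) : ℂ) ≠ 0 := by exact_mod_cast hS.ne'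
    have hPC : (((p : ℝ) ^ (((k : ℝ) - 1) / 2) : ℝ) : ℂ) ≠ 0 := by exact_mod_cast hP.ne'
    have hpC : (p : ℂ) ≠ 0 := by exact_mod_cast hp.ne_zero
    have hSSC : ((√(p : ℝ) : ℝ) : ℂ) * ((√(p : ℝ) : ℝ) : ℂ) = (p : ℂ) := by exact_mod_cast hSS
    generalize (∑ b ∈ Finset.range p, f ⟨((z : ℂ) + b) / p, hwim b⟩) = Sg at hH ⊢
    generalize hY : z.im ^ ((k : ℝ) / 2) = Y
    rw [mul_left_comm (lam p), hH]
    push_cast
    field_simp
    linear_combination (-(Y : ℂ) * Sg) * hSSC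

end Pool.Agent.JO
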