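import Pool.Agent.Lib_helper84.JO.Form

/-!
# Project JO (MP_f4574f_nt), block HK, part A: the cocycle and the elementary statements
-/

set_option autoImplicit false

namespace Pool.Agent.JO

open Complex MeasureTheory Filter Topology
open UpperHalfPlane hiding I
open scoped MatrixGroups ComplexConjugate

/-! ### the cocycle -/

/-- the automorphy factor `c z + d` -/
noncomputable def hkj (g : SL(2, ℝ)) (z : ℍ) : ℂ :=
  ((g 1 0 : ℝ) : ℂ) * (z : ℂ) + ((g 1 1 : ℝ) : ℂ)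

theorem hkj_I (g : SL(2, ℝ)) : hkj g UpperHalfPlane.I = jI g := by
  rw [hkj, jI, UpperHalfPlane.coe_I]

theorem hk_smul_coe (g : SL(2, ℝ)) (z : ℍ) :
    ((g • z : ℍ) : ℂ) = (((g 0 0 : ℝ) : ℂ) * (z : ℂ) + ((g 0 1 : ℝ) : ℂ)) / hkj g z := by
  rw [UpperHalfPlane.coe_specialLinearGroup_apply]
  rfl

theorem hkj_ne (g : SL(2, ℝ)) (z : ℍ) : hkj g z ≠ 0 := by
  intro h
  rw [hkj] at h
  have h1 := congrArg Complex.im h
  have h2 := congrArg Complex.re h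
  simp only [Complex.add_im, Complex.mul_im, Complex.ofReal_re, Complex.ofReal_im, zero_mul,
    add_zero, Complex.zero_im, UpperHalfPlane.coe_im, Complex.add_re, Complex.mul_re, sub_zero,
    Complex.zero_re, UpperHalfPlane.coe_re] at h1 h2
  have h3 : g 1 0 = 0 := by
    rcases mul_eq_zero.1 h1 with h | h
    · exact h
    · exact absurd h z.im_pos.ne'
  rw [h3, zero_mul, zero_add] at h2
  have h4 := g.2
  rw [Matrix.det_fin_two] at h4
  have h5 : (g : Matrix (Fin 2) (Fin 2) ℝ) 1 0 = 0 := h3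
  have h6 : (g : Matrix (Fin 2) (Fin 2) ℝ) 1 1 = 0 := h2
  rw [h5, h6] at h4
  simp at h4

theorem hkj_mul (g h : SL(2, ℝ)) (z : ℍ) : hkj (g * h) z = hkj g (h • z) * hkj h z := by
  have h1 := hkj_ne h z
  have h2 : (h • z : ℍ) = ((((h 0 0 : ℝ) : ℂ) * (z : ℂ) + ((h 0 1 : ℝ) : ℂ)) / hkj h z : ℂ) :=
    hk_smul_coe h z
  rw [hkj, hkj, h2]
  have e1 : (g * h) 1 0 = g 1 0 * h 0 0 + g 1 1 * h 1 0 := by
    rw [Matrix.SpecialLinearGroup.coe_mul, Matrix.mul_apply, Fin.sum_univ_two]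
  have e2 : (g * h) 1 1 = g 1 0 * h 0 1 + g 1 1 * h 1 1 := by
    rw [Matrix.SpecialLinearGroup.coe_mul, Matrix.mul_apply, Fin.sum_univ_two]
  rw [e1, e2]
  push_cast
  field_simp
  rw [hkj]
  ring

theorem hkj_one (z : ℍ) : hkj 1 z = 1 := by
  rw [hkj]
  simp

theorem hk_toR_apply (γ : SL(2, ℤ)) (i j : Fin 2) : toR γ i j = ((γ i j : ℤ) : ℝ) := rfl

theorem hk_toR_smul (γ : SL(2, ℤ)) (z : ℍ) : toR γ • z = γ • z := by
  apply UpperHalfPlane.ext
  rw [UpperHalfPlane.coe_specialLinearGroup_apply, UpperHalfPlane.coe_specialLinearGroup_apply]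
  rfl

theorem hk_denom (γ : SL(2, ℤ)) (z : ℍ) : denom γ z = hkj (toR γ) z := rfl

theorem hk_toR_mul (γ δ : SL(2, ℤ)) : toR (γ * δ) = toR γ * toR δ := map_mul _ _ _

theorem hk_toR_inv (γ : SL(2, ℤ)) : toR γ⁻¹ = (toR γ)⁻¹ := map_inv _ _

theorem hk_toR_one : toR 1 = 1 := map_one _

theorem hk_red_mul (N : ℕ) (γ δ : SL(2, ℤ)) : red N (γ * δ) = red N γ * red N δ := map_mul _ _ _

theorem hk_red_inv (N : ℕ) (γ : SL(2, ℤ)) : red N γ⁻¹ = (red N γ)⁻¹ := map_inv _ _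

theorem hk_red_one (N : ℕ) : red N 1 = 1 := map_one _

theorem hk_red_apply (N : ℕ) (γ : SL(2, ℤ)) (i j : Fin 2) :
    red N γ i j = ((γ i j : ℤ) : ZMod N) := rfl

/-! ### reduction modulo `N` is surjective -/

/-- a coprime lift of a row -/
theorem hk_coprime_lift {N : ℕ} [NeZero N] (s : QN N) :
    ∃ c d : ℤ, ((c : ℤ) : ZMod N) = s 1 0 ∧ ((d : ℤ) : ZMod N) = s 1 1 ∧ IsCoprime c d := by
  have hN : 0 < N := Nat.pos_of_ne_zero (NeZero.ne N)
  set c : ℕ := (s 1 0).val + N with hc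
  have hcpos : 0 < c := by omega
  have hcN : ((c : ℕ) : ZMod N) = s 1 0 := by
    rw [hc, Nat.cast_add, ZMod.natCast_zmod_val, ZMod.natCast_self, add_zero]
  set d₀ : ℕ := (s 1 1).val with hd₀
  have hdN : ((d₀ : ℕ) : ZMod N) = s 1 1 := by rw [hd₀, ZMod.natCast_zmod_val]
  have hdet : s 0 0 * s 1 1 - s 0 1 * s 1 0 = 1 := by
    have := s.2
    rw [Matrix.det_fin_two] at this
    exact this
  -- `d₀` is prime to `gcd (c, N)`
  have hg : Nat.Coprime d₀ (Nat.gcd c N) := by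
    rw [Nat.coprime_iff_gcd_eq_one]
    by_contra hcon
    obtain ⟨p, hp, hpd⟩ := Nat.exists_prime_and_dvd hcon
    have h1 : p ∣ d₀ := hpd.trans (Nat.gcd_dvd_left _ _)
    have h2 : p ∣ c := (hpd.trans (Nat.gcd_dvd_right _ _)).trans (Nat.gcd_dvd_left _ _)
    have h3 : p ∣ N := (hpd.trans (Nat.gcd_dvd_right _ _)).trans (Nat.gcd_dvd_right _ _)
    have h4 := congrArg (ZMod.castHom h3 (ZMod p)) hdet
    rw [map_sub, map_mul, map_mul, map_one, ← hcN, ← hdN, map_natCast, map_natCast,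
      (ZMod.natCast_eq_zero_iff d₀ p).2 h1, (ZMod.natCast_eq_zero_iff c p).2 h2] at h4
    have : Fact p.Prime := ⟨hp⟩
    simp at h4
  have : NeZero c := ⟨hcpos.ne'⟩
  obtain ⟨u, hu⟩ := ZMod.unitsMap_surjective (Nat.gcd_dvd_left c N) (ZMod.unitOfCoprime d₀ hg)
  have hu1 : (u : ZMod c).val ≡ d₀ [MOD Nat.gcd c N] := by
    rw [← ZMod.natCast_eq_natCast_iff]
    have h5 := congrArg Units.val hu
    rw [ZMod.coe_unitOfCoprime, ZMod.unitsMap_val] at h5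
    rw [← h5]
    rw [ZMod.natCast_val]
  obtain ⟨d, hd1, hd2⟩ := Nat.chineseRemainder' hu1
  refine ⟨c, d, by exact_mod_cast hcN, ?_, ?_⟩
  · rw [← hdN]
    have := (ZMod.natCast_eq_natCast_iff d d₀ N).2 hd2
    exact_mod_cast this
  · have h6 : Nat.Coprime d c := by
      have h7 : Nat.Coprime (u : ZMod c).val c := ZMod.val_coe_unit_coprime u
      rw [Nat.coprime_iff_gcd_eq_one] at h7 ⊢
      rw [← h7]
      exact hd1.gcd_eq
    exact (Nat.isCoprime_iff_coprime.2 h6).symm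

/-- reduction modulo `N` is surjective -/
theorem red_surj_pr (N : ℕ) [NeZero N] (s : QN N) : ∃ γ : SL(2, ℤ), red N γ = s := by
  obtain ⟨c, d, hc, hd, hcd⟩ := hk_coprime_lift s
  obtain ⟨x, y, hxy⟩ := hcd
  -- `(y, -x; c, d)`
  set γ₀ : SL(2, ℤ) := ⟨!![y, -x; c, d], by rw [Matrix.det_fin_two_of]; linarith⟩ with hγ₀
  have hdet : s 0 0 * s 1 1 - s 0 1 * s 1 0 = 1 := by
    have := s.2
    rw [Matrix.det_fin_two] at this
    exact this
  obtain ⟨t, ht⟩ := ZMod.intCast_surjective (s 0 1 * (y : ZMod N) + s 0 0 * (x : ZMod N))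
  set δ : SL(2, ℤ) := ⟨!![1, t; 0, 1], by rw [Matrix.det_fin_two_of]; ring⟩ with hδ
  refine ⟨δ * γ₀, ?_⟩
  have hxy' : (x : ZMod N) * s 1 0 + (y : ZMod N) * s 1 1 = 1 := by
    rw [← hc, ← hd]
    exact_mod_cast congrArg (Int.cast : ℤ → ZMod N) hxy
  rw [hk_red_mul]
  ext i j
  rw [Matrix.SpecialLinearGroup.coe_mul, Matrix.mul_apply, Fin.sum_univ_two]
  have a00 : red N δ 0 0 = 1 := by rw [hk_red_apply]; simp [hδ]
  have a01 : red N δ 0 1 = (t : ZMod N) := by rw [hk_red_apply]; simp [hδ]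
  have a10 : red N δ 1 0 = 0 := by rw [hk_red_apply]; simp [hδ]
  have a11 : red N δ 1 1 = 1 := by rw [hk_red_apply]; simp [hδ]
  have b00 : red N γ₀ 0 0 = (y : ZMod N) := by rw [hk_red_apply]; simp [hγ₀]
  have b01 : red N γ₀ 0 1 = -(x : ZMod N) := by rw [hk_red_apply]; simp [hγ₀]
  have b10 : red N γ₀ 1 0 = s 1 0 := by rw [hk_red_apply, ← hc]; simp [hγ₀]
  have b11 : red N γ₀ 1 1 = s 1 1 := by rw [hk_red_apply, ← hd]; simp [hγ₀]
  fin_cases i <;> fin_cases j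
  · show red N δ 0 0 * red N γ₀ 0 0 + red N δ 0 1 * red N γ₀ 1 0 = s 0 0
    rw [a00, a01, b00, b10, ht]
    linear_combination (y : ZMod N) * (-1) * hdet + s 0 0 * hxy'
  · show red N δ 0 0 * red N γ₀ 0 1 + red N δ 0 1 * red N γ₀ 1 1 = s 0 1
    rw [a00, a01, b01, b11, ht]
    linear_combination (x : ZMod N) * hdet + s 0 1 * hxy'
  · show red N δ 1 0 * red N γ₀ 0 0 + red N δ 1 1 * red N γ₀ 1 0 = s 1 0
    rw [a10, a11, b10, zero_mul, zero_add, one_mul]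
  · show red N δ 1 0 * red N γ₀ 0 1 + red N δ 1 1 * red N γ₀ 1 1 = s 1 1
    rw [a10, a11, b11, zero_mul, zero_add, one_mul]

end Pool.Agent.JO
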