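import Pool.Agent.Lib_helper97.JO.HKA
set_option autoImplicit false
namespace Pool.Agent.JO
open Complex MeasureTheory Filter Topology
open UpperHalfPlane hiding I
open scoped MatrixGroups ComplexConjugate

theorem red_lft_pr {N : ℕ} [NeZero N] (s : QN N) : red N (lft s) = s := by
  have h := red_surj_pr N s
  rw [lft, dif_pos h]
  exact h.choose_spec

/-- the unimodular cocycle -/
noncomputable def hkju (g : SL(2, ℝ)) (z : ℍ) : ℂ := hkj g z / ‖hkj g z‖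

theorem hkju_I (g : SL(2, ℝ)) : hkju g UpperHalfPlane.I = juI g := by
  rw [hkju, juI, hkj_I]

theorem hkju_mul (g h : SL(2, ℝ)) (z : ℍ) : hkju (g * h) z = hkju g (h • z) * hkju h z := by
  rw [hkju, hkju, hkju, hkj_mul, norm_mul]
  push_cast
  rw [mul_div_mul_comm]

theorem hkju_norm (g : SL(2, ℝ)) (z : ℍ) : ‖hkju g z‖ = 1 := by
  rw [hkju, norm_div, Complex.norm_real, norm_norm, div_self]
  exact norm_ne_zero_iff.2 (hkj_ne g z)

theorem hkju_ne (g : SL(2, ℝ)) (z : ℍ) : hkju g z ≠ 0 := by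
  intro h
  have := hkju_norm g z
  rw [h, norm_zero] at this
  exact zero_ne_one this

theorem juI_mul (g h : SL(2, ℝ)) : juI (g * h) = hkju g (h • UpperHalfPlane.I) * juI h := by
  rw [← hkju_I, ← hkju_I, hkju_mul]

theorem juI_norm (g : SL(2, ℝ)) : ‖juI g‖ = 1 := by rw [← hkju_I, hkju_norm]

theorem juI_ne (g : SL(2, ℝ)) : juI g ≠ 0 := by rw [← hkju_I]; exact hkju_ne _ _

/-- the transformation under `Γ₀(N)` in terms of `SL₂(ℝ)` -/
theorem hk_aut {N : ℕ} {χ : DirichletCharacter ℂ N} {k : ℕ} {lam : ℕ → ℂ}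
    {u : ℍ → ℂ} (hu : WForm N χ k lam u) (γ : SL(2, ℤ)) (h : (N : ℤ) ∣ γ 1 0) (g : SL(2, ℝ)) :
    u ((toR γ * g) • UpperHalfPlane.I) * (juI (toR γ * g) ^ k)⁻¹ =
      χ ((γ 1 1 : ℤ) : ZMod N) * (u (g • UpperHalfPlane.I) * (juI g ^ k)⁻¹) := by
  rw [mul_smul, hk_toR_smul, hu.aut γ h, hk_denom, juI_mul, mul_pow, mul_inv]
  have h1 : (hkj (toR γ) (g • UpperHalfPlane.I) / (‖hkj (toR γ) (g • UpperHalfPlane.I)‖ : ℂ)) =
    hkju (toR γ) (g • UpperHalfPlane.I) := rfl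
  rw [h1]
  have h2 := pow_ne_zero k (hkju_ne (toR γ) (g • UpperHalfPlane.I))
  field_simp

theorem liftK_red_pr {N : ℕ} [NeZero N] {χ : DirichletCharacter ℂ N} {k : ℕ} {lam : ℕ → ℂ}
    {u : ℍ → ℂ} (hu : WForm N χ k lam u) (γ : SL(2, ℤ)) (g : SL(2, ℝ)) :
    liftK k u (red N γ) g =
      u (((toR γ)⁻¹ * g) • UpperHalfPlane.I) * (juI ((toR γ)⁻¹ * g) ^ k)⁻¹ := by
  set γ' := lft (red N γ) with hγ'
  set δ : SL(2, ℤ) := γ'⁻¹ * γ with hδ
  have h1 : red N δ = 1 := by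
    rw [hδ, hk_red_mul, hk_red_inv, hγ', red_lft_pr, inv_mul_cancel]
  have h2 : (N : ℤ) ∣ δ 1 0 := by
    rw [← ZMod.intCast_zmod_eq_zero_iff_dvd, ← hk_red_apply, h1]
    rfl
  have h3 : ((δ 1 1 : ℤ) : ZMod N) = 1 := by
    rw [← hk_red_apply, h1]
    rfl
  have h4 := hk_aut hu δ h2 ((toR γ)⁻¹ * g)
  rw [h3, map_one, one_mul] at h4
  have h5 : toR δ * ((toR γ)⁻¹ * g) = (toR γ')⁻¹ * g := by
    rw [hδ, hk_toR_mul, hk_toR_inv, mul_assoc, ← mul_assoc (toR γ), mul_inv_cancel, one_mul]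
  rw [h5] at h4
  rw [liftK, ← hγ', h4]

theorem fam_liftK_pr {N : ℕ} [NeZero N] {χ : DirichletCharacter ℂ N} {k : ℕ} {lam : ℕ → ℂ}
    {u : ℍ → ℂ} (hu : WForm N χ k lam u) : Fam (N := N) (liftK k u) := by
  intro γ s g
  have h1 : red N γ * s = red N (γ * lft s) := by rw [hk_red_mul, red_lft_pr]
  rw [h1, liftK_red_pr hu, liftK, hk_toR_mul, mul_inv_rev, mul_assoc, ← mul_assoc (toR γ)⁻¹,
    inv_mul_cancel, one_mul]

theorem gg_eq_mul_kK_pr (z : ℍ) (a : ℝ) : gg z a = gg z 0 * kK a := by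
  ext i j
  rw [Matrix.SpecialLinearGroup.coe_mul, Matrix.mul_apply, Fin.sum_univ_two]
  fin_cases i <;> fin_cases j <;>
    simp [gg, kK] <;> ring

theorem hk_kK_smul_I (a : ℝ) : kK a • UpperHalfPlane.I = UpperHalfPlane.I := by
  apply UpperHalfPlane.ext
  have h := hk_smul_coe (kK a) UpperHalfPlane.I
  have hne := hkj_ne (kK a) UpperHalfPlane.I
  rw [h, div_eq_iff hne, hkj, UpperHalfPlane.coe_I]
  simp only [kK, Matrix.of_apply, Matrix.cons_val', Matrix.cons_val_zero, Matrix.cons_val_one,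
    Matrix.cons_val_fin_one]
  push_cast
  linear_combination (Complex.sin a) * Complex.I_sq

theorem gg_smul_I_pr (z : ℍ) (a : ℝ) : gg z a • UpperHalfPlane.I = z := by
  rw [gg_eq_mul_kK_pr, mul_smul, hk_kK_smul_I]
  apply UpperHalfPlane.ext
  have h := hk_smul_coe (gg z 0) UpperHalfPlane.I
  have hne := hkj_ne (gg z 0) UpperHalfPlane.I
  rw [h, div_eq_iff hne, hkj, UpperHalfPlane.coe_I]
  have hy : 0 < z.im := z.im_pos
  have hs : (√z.im) * (√z.im) = z.im := Real.mul_self_sqrt hy.le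
  have hs0 : √z.im ≠ 0 := (Real.sqrt_pos.2 hy).ne'
  simp only [gg, Matrix.of_apply, Matrix.cons_val', Matrix.cons_val_zero, Matrix.cons_val_one,
    Matrix.cons_val_fin_one, Real.cos_zero, Real.sin_zero, mul_one, mul_zero, zero_div, sub_zero,
    zero_add, neg_zero]
  have hz : (z : ℂ) = (z.re : ℂ) + (z.im : ℂ) * I := by
    apply Complex.ext <;> simp
  have hs0' : ((√z.im : ℝ) : ℂ) ≠ 0 := by exact_mod_cast hs0
  have hsC : ((√z.im : ℝ) : ℂ) * ((√z.im : ℝ) : ℂ) = (z.im : ℂ) := by exact_mod_cast hs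
  rw [hz]
  push_cast
  field_simp
  linear_combination I * hsC

theorem juI_mul_kK (g : SL(2, ℝ)) (a : ℝ) : juI (g * kK a) = juI g * cexp (-(a * I)) := by
  rw [juI_mul, hk_kK_smul_I, hkju_I]
  congr 1
  have h1 : jI (kK a) = cexp (-(a * I)) := by
    rw [jI, ← neg_mul, ← Complex.ofReal_neg, Complex.exp_ofReal_mul_I]
    simp only [kK, Matrix.of_apply, Matrix.cons_val', Matrix.cons_val_zero, Matrix.cons_val_one,
      Matrix.cons_val_fin_one]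
    rw [Real.cos_neg, Real.sin_neg]
    ring
  rw [juI, h1]
  have h2 : ‖cexp (-(a * I))‖ = 1 := by
    rw [← neg_mul, ← Complex.ofReal_neg, Complex.norm_exp_ofReal_mul_I]
  rw [h2]
  simp

theorem liftK_kK_pr {N : ℕ} (k : ℕ) (u : ℍ → ℂ) (s : QN N) (g : SL(2, ℝ)) (a : ℝ) :
    liftK k u s (g * kK a) = cexp (k * a * I) * liftK k u s g := by
  rw [liftK, liftK, ← mul_assoc, mul_smul, hk_kK_smul_I, juI_mul_kK, mul_pow, mul_inv,
    ← Complex.exp_nat_mul, ← Complex.exp_neg]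
  have h : -((k : ℂ) * -(a * I)) = k * a * I := by ring
  rw [h]
  ring

theorem hk_norm_liftK {N : ℕ} (k : ℕ) (u : ℍ → ℂ) (s : QN N) (g : SL(2, ℝ)) :
    ‖liftK k u s g‖ = ‖u ((lft s)⁻¹ • (g • UpperHalfPlane.I))‖ := by
  rw [liftK, norm_mul, norm_inv, norm_pow, juI_norm, one_pow, inv_one, mul_one, mul_smul,
    ← hk_toR_inv, hk_toR_smul]

theorem liftK_decay_pr {N : ℕ} [NeZero N] {χ : DirichletCharacter ℂ N} {k : ℕ} {lam : ℕ → ℂ}
    {u : ℍ → ℂ} (hu : WForm N χ k lam u) :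
    ∃ C c : ℝ, 0 < c ∧ ∀ (s : QN N) (z : ℍ) (a : ℝ), 1 / 2 ≤ z.im →
      ‖liftK k u s (gg z a)‖ ≤ C * Real.exp (-c * z.im) := by
  obtain ⟨C, c, hc, h⟩ := hu.decay
  refine ⟨C, c, hc, fun s z a hz => ?_⟩
  rw [hk_norm_liftK, gg_smul_I_pr]
  exact h _ z hz

theorem liftK_bdd_pr {N : ℕ} [NeZero N] {χ : DirichletCharacter ℂ N} {k : ℕ} {lam : ℕ → ℂ}
    {u : ℍ → ℂ} (hu : WForm N χ k lam u) :
    ∃ B : ℝ, ∀ (s : QN N) (g : SL(2, ℝ)), ‖liftK k u s g‖ ≤ B := by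
  obtain ⟨C, c, hc, h⟩ := hu.decay
  refine ⟨|C|, fun s g => ?_⟩
  rw [hk_norm_liftK]
  obtain ⟨γ, hγ⟩ := ModularGroup.exists_smul_mem_fd (g • UpperHalfPlane.I)
  set w := γ • (g • UpperHalfPlane.I) with hw
  have h1 : (lft s)⁻¹ • (g • UpperHalfPlane.I) = ((lft s)⁻¹ * γ⁻¹) • w := by
    rw [mul_smul, hw, inv_smul_smul]
  rw [h1]
  have h2 : 1 / 2 ≤ w.im := by
    have h3 := ModularGroup.three_le_four_mul_im_sq_of_mem_fd hγ
    have h4 := w.im_pos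
    nlinarith
  refine (h _ w h2).trans ?_
  have h5 : Real.exp (-c * w.im) ≤ 1 := by
    rw [Real.exp_le_one_iff]
    nlinarith [w.im_pos]
  calc C * Real.exp (-c * w.im) ≤ |C| * Real.exp (-c * w.im) :=
        mul_le_mul_of_nonneg_right (le_abs_self C) (Real.exp_pos _).le
    _ ≤ |C| * 1 := mul_le_mul_of_nonneg_left h5 (abs_nonneg C)
    _ = |C| := mul_one _

theorem liftH_phiF_pr' {N : ℕ} (k : ℕ) (u : ℍ → ℂ) (s : QN N) (g : SL(2, ℝ)) :
    liftH (phiF u) s g = liftK k u s g * conj (liftK k u s g) := by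
  rw [Complex.mul_conj, Complex.normSq_eq_norm_sq, hk_norm_liftK, liftH, phiF]

theorem liftH_phiF_pr {N : ℕ} [NeZero N] {χ : DirichletCharacter ℂ N} {k : ℕ} {lam : ℕ → ℂ}
    {u : ℍ → ℂ} (_hu : WForm N χ k lam u) (s : QN N) (g : SL(2, ℝ)) :
    liftH (phiF u) s g = liftK k u s g * conj (liftK k u s g) := liftH_phiF_pr' k u s g

theorem famH_phiF_pr {N : ℕ} [NeZero N] {χ : DirichletCharacter ℂ N} {k : ℕ} {lam : ℕ → ℂ}
    {u : ℍ → ℂ} (hu : WForm N χ k lam u) : FamH (N := N) (phiF u) := by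
  intro γ s z
  have h1 := liftH_phiF_pr hu (red N γ * s) (toR γ * gg z 0)
  have h2 := liftH_phiF_pr hu s (gg z 0)
  rw [fam_liftK_pr hu] at h1
  rw [← h2, liftH, liftH, mul_smul, gg_smul_I_pr, hk_toR_smul] at h1
  exact h1

theorem phiF_one_pr {N : ℕ} [NeZero N] {χ : DirichletCharacter ℂ N} {k : ℕ} {lam : ℕ → ℂ}
    {u : ℍ → ℂ} (hu : WForm N χ k lam u) (z : ℍ) :
    phiF u (1 : QN N) z = ((‖u z‖ ^ 2 : ℝ) : ℂ) := by
  have h1 := liftH_phiF_pr hu (1 : QN N) (gg z 0)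
  rw [liftH, gg_smul_I_pr] at h1
  rw [h1, Complex.mul_conj, Complex.normSq_eq_norm_sq, ← hk_red_one N, liftK_red_pr hu,
    hk_toR_one, inv_one, one_mul, gg_smul_I_pr, norm_mul, norm_inv, norm_pow, juI_norm, one_pow,
    inv_one, mul_one]

end Pool.Agent.JO
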