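import Pool.Agent.Lib_helper97.JO.HKB
set_option autoImplicit false
namespace Pool.Agent.JO
open Complex MeasureTheory Filter Topology
open UpperHalfPlane hiding I
open scoped MatrixGroups ComplexConjugate

/-! ### continuity -/

theorem hk_continuous_entry (i j : Fin 2) : Continuous fun g : SL(2, ℝ) => g i j :=
  (continuous_apply_apply i j).comp continuous_subtype_val

theorem hk_continuous_jI : Continuous jI := by
  have h1 := Complex.continuous_ofReal.comp (hk_continuous_entry 1 0)
  have h2 := Complex.continuous_ofReal.comp (hk_continuous_entry 1 1)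
  exact (h1.mul continuous_const).add h2

theorem jI_ne (g : SL(2, ℝ)) : jI g ≠ 0 := by rw [← hkj_I]; exact hkj_ne _ _

theorem hk_continuous_juI : Continuous juI := by
  refine hk_continuous_jI.div (Complex.continuous_ofReal.comp hk_continuous_jI.norm) fun g => ?_
  exact_mod_cast norm_ne_zero_iff.2 (jI_ne g)

theorem continuous_liftK'_pr {N : ℕ} [NeZero N] {χ : DirichletCharacter ℂ N} {k : ℕ} {lam : ℕ → ℂ}
    {u : ℍ → ℂ} (hu : WForm N χ k lam u) (s : QN N) :
    Continuous fun g : SL(2, ℝ) => liftK k u s g := by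
  have h1 : Continuous fun g : SL(2, ℝ) => (toR (lft s))⁻¹ * g := continuous_const.mul continuous_id
  have h2 : Continuous fun g : SL(2, ℝ) => ((toR (lft s))⁻¹ * g) • UpperHalfPlane.I :=
    h1.smul continuous_const
  refine (hu.cont.comp h2).mul (((hk_continuous_juI.comp h1).pow k).inv₀ fun g => ?_)
  exact pow_ne_zero k (juI_ne _)

theorem hk_continuous_gg : Continuous fun p : ℍ × ℝ => gg p.1 p.2 := by
  have hre : Continuous fun p : ℍ × ℝ => p.1.re := UpperHalfPlane.continuous_re.comp continuous_fst
  have him : Continuous fun p : ℍ × ℝ => √p.1.im :=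
    Real.continuous_sqrt.comp (UpperHalfPlane.continuous_im.comp continuous_fst)
  have hc : Continuous fun p : ℍ × ℝ => Real.cos p.2 := Real.continuous_cos.comp continuous_snd
  have hs : Continuous fun p : ℍ × ℝ => Real.sin p.2 := Real.continuous_sin.comp continuous_snd
  have hne : ∀ p : ℍ × ℝ, √p.1.im ≠ 0 := fun p => (Real.sqrt_pos.2 p.1.im_pos).ne'
  refine Continuous.subtype_mk (continuous_matrix fun i j => ?_) _
  fin_cases i <;> fin_cases j
  · exact (him.mul hc).sub ((hre.mul hs).div him hne)
  · exact (him.mul hs).add ((hre.mul hc).div him hne)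
  · exact hs.neg.div him hne
  · exact hc.div him hne

theorem continuous_liftK_pr {N : ℕ} [NeZero N] {χ : DirichletCharacter ℂ N} {k : ℕ} {lam : ℕ → ℂ}
    {u : ℍ → ℂ} (hu : WForm N χ k lam u) (s : QN N) :
    Continuous fun p : ℍ × ℝ => liftK k u s (gg p.1 p.2) :=
  (continuous_liftK'_pr hu s).comp hk_continuous_gg

theorem mf_liftK_pr {N : ℕ} [NeZero N] {χ : DirichletCharacter ℂ N} {k : ℕ} {lam : ℕ → ℂ}
    {u : ℍ → ℂ} (hu : WForm N χ k lam u) : MF (N := N) (liftK k u) := by
  refine ⟨fam_liftK_pr hu, fun s => ?_⟩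
  exact (continuous_liftK_pr hu s).measurable

end Pool.Agent.JO
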