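import Pool.Agent.Lib_helper97.JO.HKD

/-!
# Project JO (MP_f4574f_nt), block HK, part E: the eigenvalue of `T_{p²}`
-/

set_option autoImplicit false

namespace Pool.Agent.JO

open Complex MeasureTheory Filter Topology
open UpperHalfPlane hiding I
open scoped MatrixGroups ComplexConjugate

/-- the point `(a z + b)/d` -/
noncomputable def hkz (t : ℕ × ℕ × ℕ) (z : ℍ) : ℍ :=
  ofComplex (((t.1 : ℂ) * z + t.2.1) / t.2.2)

theorem hkz_coe {t : ℕ × ℕ × ℕ} (ha : 0 < t.1) (hd : 0 < t.2.2) (z : ℍ) :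
    ((hkz t z : ℍ) : ℂ) = ((t.1 : ℂ) * (z : ℂ) + (t.2.1 : ℂ)) / (t.2.2 : ℂ) := by
  rw [hkz, UpperHalfPlane.ofComplex_apply_of_im_pos]
  rw [Complex.div_natCast_im, Complex.add_im, Complex.natCast_im, add_zero, Complex.mul_im,
    Complex.natCast_re, Complex.natCast_im, zero_mul, add_zero]
  have h1 : (0 : ℝ) < t.1 := by exact_mod_cast ha
  have h2 : (0 : ℝ) < t.2.2 := by exact_mod_cast hd
  exact div_pos (mul_pos h1 z.im_pos) h2

theorem hk_hR_entries {m : ℕ} (hm : 0 < m) {t : ℕ × ℕ × ℕ} (ht : t ∈ HM (m ^ 2)) :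
    hR m t 0 0 = (m : ℝ)⁻¹ * t.1 ∧ hR m t 0 1 = (m : ℝ)⁻¹ * t.2.1 ∧ hR m t 1 0 = 0 ∧
      hR m t 1 1 = (m : ℝ)⁻¹ * t.2.2 := by
  have h := hk_hR_coe hm ht
  refine ⟨?_, ?_, ?_, ?_⟩
  · have := congrFun (congrFun h 0) 0; simpa [hkd] using this
  · have := congrFun (congrFun h 0) 1; simpa [hkd] using this
  · have := congrFun (congrFun h 1) 0; simpa [hkd] using this
  · have := congrFun (congrFun h 1) 1; simpa [hkd] using this

theorem hk_hQ_entries {N m : ℕ} (hm : 0 < m) (hmN : m.Coprime N) {t : ℕ × ℕ × ℕ}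
    (ht : t ∈ HM (m ^ 2)) :
    hQ N m t 0 0 = (m : ZMod N)⁻¹ * t.1 ∧ hQ N m t 1 0 = 0 := by
  have h := hk_hQ_coe hm hmN ht
  refine ⟨?_, ?_⟩
  · have := congrFun (congrFun h 0) 0; simpa [hkd] using this
  · have := congrFun (congrFun h 1) 0; simpa [hkd] using this

theorem hkj_hR {m : ℕ} (hm : 0 < m) {t : ℕ × ℕ × ℕ} (ht : t ∈ HM (m ^ 2)) (z : ℍ) :
    hkj (hR m t) z = (((m : ℝ)⁻¹ * t.2.2 : ℝ) : ℂ) := by
  obtain ⟨-, -, h1, h2⟩ := hk_hR_entries hm ht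
  rw [hkj, h1, h2, Complex.ofReal_zero, zero_mul, zero_add]

theorem hkju_hR {m : ℕ} (hm : 0 < m) {t : ℕ × ℕ × ℕ} (ht : t ∈ HM (m ^ 2)) (z : ℍ) :
    hkju (hR m t) z = 1 := by
  have h1 := (hk_mem_HM (pow_pos hm 2) t).1 ht
  obtain ⟨-, hd, -⟩ := hk_cube (pow_pos hm 2) h1.1 h1.2
  have h2 : (0 : ℝ) < (m : ℝ)⁻¹ * t.2.2 := by positivity
  rw [hkju, hkj_hR hm ht, Complex.norm_real, Real.norm_of_nonneg h2.le, div_self]
  exact_mod_cast h2.ne'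

theorem hk_hR_smul {m : ℕ} (hm : 0 < m) {t : ℕ × ℕ × ℕ} (ht : t ∈ HM (m ^ 2)) (z : ℍ) :
    hR m t • z = hkz t z := by
  have h1 := (hk_mem_HM (pow_pos hm 2) t).1 ht
  obtain ⟨ha, hd, -⟩ := hk_cube (pow_pos hm 2) h1.1 h1.2
  obtain ⟨h2, h3, -, -⟩ := hk_hR_entries hm ht
  apply UpperHalfPlane.ext
  have hmC : (m : ℂ) ≠ 0 := by exact_mod_cast hm.ne'
  have hdC : (t.2.2 : ℂ) ≠ 0 := by exact_mod_cast hd.ne'
  rw [hk_smul_coe, hkz_coe ha hd, hkj_hR hm ht, h2, h3]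
  push_cast
  field_simp

theorem hk_chi_inv {N m : ℕ} [NeZero N] (hmN : m.Coprime N) (χ : DirichletCharacter ℂ N) :
    χ ((m : ZMod N)⁻¹) = conj (χ (m : ZMod N)) := by
  have h1 : χ (m : ZMod N) * χ ((m : ZMod N)⁻¹) = 1 := by rw [← map_mul, hk_unit hmN, map_one]
  have h2 : ‖χ (m : ZMod N)‖ = 1 := by
    have h3 := DirichletCharacter.unit_norm_eq_one χ (ZMod.unitOfCoprime m hmN)
    rwa [ZMod.coe_unitOfCoprime] at h3
  have h4 : χ (m : ZMod N) * conj (χ (m : ZMod N)) = 1 := by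
    rw [Complex.mul_conj, Complex.normSq_eq_norm_sq, h2]
    simp
  have h5 : χ (m : ZMod N) ≠ 0 := left_ne_zero_of_mul_eq_one h1
  exact mul_left_cancel₀ h5 (h1.trans h4.symm)

theorem hk_term {N : ℕ} [NeZero N] {χ : DirichletCharacter ℂ N} {k : ℕ} {lam : ℕ → ℂ}
    {u : ℍ → ℂ} (hu : WForm N χ k lam u) {m : ℕ} (hm : 0 < m) (hmN : m.Coprime N)
    {t : ℕ × ℕ × ℕ} (ht : t ∈ HM (m ^ 2)) (h : SL(2, ℝ)) :
    liftK k u (hQ N m t * 1) (hR m t * h) = conj (χ (m : ZMod N)) * (juI h ^ k)⁻¹ *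
      (χ (t.1 : ZMod N) * u (hkz t (h • UpperHalfPlane.I))) := by
  obtain ⟨σ, hσ⟩ := red_surj_pr N (hQ N m t)
  obtain ⟨e1, e2⟩ := hk_hQ_entries hm hmN ht
  have s00 : ((σ 0 0 : ℤ) : ZMod N) = (m : ZMod N)⁻¹ * t.1 := by
    rw [← hk_red_apply, hσ, e1]
  have s10 : ((σ 1 0 : ℤ) : ZMod N) = 0 := by
    rw [← hk_red_apply, hσ, e2]
  have i10 : (σ⁻¹ : SL(2, ℤ)) 1 0 = -σ 1 0 := by
    rw [Matrix.SpecialLinearGroup.coe_inv, Matrix.adjugate_fin_two]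
    rfl
  have i11 : (σ⁻¹ : SL(2, ℤ)) 1 1 = σ 0 0 := by
    rw [Matrix.SpecialLinearGroup.coe_inv, Matrix.adjugate_fin_two]
    rfl
  have hdvd : (N : ℤ) ∣ (σ⁻¹ : SL(2, ℤ)) 1 0 := by
    rw [i10, dvd_neg, ← ZMod.intCast_zmod_eq_zero_iff_dvd, s10]
  have h2 := hk_aut hu σ⁻¹ hdvd (hR m t * h)
  rw [mul_one, ← hσ, liftK_red_pr hu, ← hk_toR_inv, h2, i11, s00, map_mul, hk_chi_inv hmN,
    mul_smul, hk_hR_smul hm ht, juI_mul, hkju_hR hm ht, one_mul]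
  ring

/-! ### `T_p` applied twice -/

theorem hk_heckeT {N : ℕ} (χ : DirichletCharacter ℂ N) {p : ℕ} (hp : p.Prime) (u : ℍ → ℂ) (z : ℍ) :
    heckeT χ p u z = ((√(p : ℝ) : ℝ) : ℂ)⁻¹ * (χ (p : ZMod N) * u (hkz (p, 0, 1) z) +
      ∑ b ∈ Finset.range p, u (hkz (1, b, p) z)) := by
  rw [heckeT]
  congr 1
  rw [Nat.sum_divisorsAntidiagonal (fun a d => χ (a : ZMod N) *
    ∑ b ∈ Finset.range d, u (ofComplex (((a : ℂ) * z + b) / d))), hp.sum_divisors,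
    Nat.div_self hp.pos, Nat.div_one, Finset.sum_range_one]
  simp only [Nat.cast_one, map_one, one_mul, hkz]

theorem hk_translate {N : ℕ} {χ : DirichletCharacter ℂ N} {k : ℕ} {lam : ℕ → ℂ}
    {u : ℍ → ℂ} (hu : WForm N χ k lam u) (z w : ℍ) (b : ℕ) (h : (w : ℂ) = z + b) : u w = u z := by
  set γ : SL(2, ℤ) := ⟨!![1, (b : ℤ); 0, 1], by rw [Matrix.det_fin_two_of]; ring⟩ with hγ
  have g10 : γ 1 0 = 0 := by simp [hγ]
  have g11 : γ 1 1 = 1 := by simp [hγ]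
  have h1 := hu.aut γ (by rw [g10]; exact dvd_zero _) z
  have h2 : denom γ z = 1 := by
    rw [hk_denom, hkj, hk_toR_apply, hk_toR_apply, g10, g11]
    simp
  have h3 : γ • z = w := by
    apply UpperHalfPlane.ext
    rw [← hk_toR_smul, hk_smul_coe, ← hk_denom, h2, h]
    have g00 : toR γ 0 0 = 1 := by rw [hk_toR_apply]; simp [hγ]
    have g01 : toR γ 0 1 = b := by rw [hk_toR_apply]; simp [hγ]
    rw [g00, g01]
    simp
  rw [h3, h2, g11] at h1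
  simpa using h1

theorem hk_sum_range_mul (p : ℕ) (f : ℕ → ℂ) (n : ℕ) :
    ∑ j ∈ Finset.range (p * n), f j =
      ∑ c ∈ Finset.range n, ∑ b ∈ Finset.range p, f (b + p * c) := by
  induction n with
  | zero => simp
  | succ n ih =>
    rw [Nat.mul_succ, Finset.sum_range_add, ih, Finset.sum_range_succ]
    congr 1
    exact Finset.sum_congr rfl fun b _ => by rw [add_comm]

theorem hkz_comp {t s r : ℕ × ℕ × ℕ} (ht : 0 < t.1 ∧ 0 < t.2.2) (hs : 0 < s.1 ∧ 0 < s.2.2)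
    (hr : 0 < r.1 ∧ 0 < r.2.2) (e1 : t.1 * s.1 * r.2.2 = r.1 * (s.2.2 * t.2.2))
    (e2 : (t.1 * s.2.1 + t.2.1 * s.2.2) * r.2.2 = r.2.1 * (s.2.2 * t.2.2)) (z : ℍ) :
    hkz t (hkz s z) = hkz r z := by
  apply UpperHalfPlane.ext
  rw [hkz_coe ht.1 ht.2, hkz_coe hs.1 hs.2, hkz_coe hr.1 hr.2]
  have h1 : (t.2.2 : ℂ) ≠ 0 := by exact_mod_cast ht.2.ne'
  have h2 : (s.2.2 : ℂ) ≠ 0 := by exact_mod_cast hs.2.ne'
  have h3 : (r.2.2 : ℂ) ≠ 0 := by exact_mod_cast hr.2.ne'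
  have e1' : (t.1 : ℂ) * s.1 * r.2.2 = r.1 * (s.2.2 * t.2.2) := by exact_mod_cast e1
  have e2' : ((t.1 : ℂ) * s.2.1 + t.2.1 * s.2.2) * r.2.2 = r.2.1 * (s.2.2 * t.2.2) := by
    exact_mod_cast e2
  field_simp
  linear_combination (z : ℂ) * e1' + e2'

theorem hk_sum_HM {N : ℕ} [NeZero N] {χ : DirichletCharacter ℂ N} {k : ℕ} {lam : ℕ → ℂ}
    {u : ℍ → ℂ} (hu : WForm N χ k lam u) {p : ℕ} (hp : p.Prime) (hpN : ¬ p ∣ N) (z : ℍ) :
    ∑ t ∈ HM (p ^ 2), χ (t.1 : ZMod N) * u (hkz t z) =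
      p * (lam p ^ 2 - χ (p : ZMod N)) * u z := by
  have hp0 : 0 < p := hp.pos
  have hsq : (((√(p : ℝ) : ℝ) : ℂ)⁻¹) * (((√(p : ℝ) : ℝ) : ℂ)⁻¹) = (p : ℂ)⁻¹ := by
    rw [← mul_inv, ← Complex.ofReal_mul, Real.mul_self_sqrt (Nat.cast_nonneg p)]
    simp
  have hpC : (p : ℂ) ≠ 0 := by exact_mod_cast hp0.ne'
  have hT : ∀ w : ℍ, lam p * u w = ((√(p : ℝ) : ℝ) : ℂ)⁻¹ * (χ (p : ZMod N) * u (hkz (p, 0, 1) w) +
      ∑ b ∈ Finset.range p, u (hkz (1, b, p) w)) := fun w => by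
    rw [← hu.hecke p hp hpN w, hk_heckeT χ hp]
  -- the sum over the representatives
  have hS : ∑ t ∈ HM (p ^ 2), χ (t.1 : ZMod N) * u (hkz t z) =
      ∑ j ∈ Finset.range (p ^ 2), u (hkz (1, j, p ^ 2) z) +
      χ (p : ZMod N) * ∑ b ∈ Finset.range p, u (hkz (p, b, p) z) +
      χ (p : ZMod N) ^ 2 * u (hkz (p ^ 2, 0, 1) z) := by
    rw [hk_HM_sum (pow_pos hp0 2) (fun t => χ (t.1 : ZMod N) * u (hkz t z)),
      Nat.sum_divisors_prime_pow hp, Finset.sum_range_succ, Finset.sum_range_succ,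
      Finset.sum_range_succ, Finset.sum_range_zero, zero_add]
    have d1 : p ^ 2 / p ^ 1 = p := by rw [pow_one, pow_two, Nat.mul_div_cancel_left _ hp0]
    have d2 : p ^ 2 / p ^ 2 = 1 := Nat.div_self (pow_pos hp0 2)
    rw [d1, d2, pow_zero, Nat.div_one, pow_one, Finset.sum_range_one, Finset.mul_sum]
    simp only [Nat.cast_one, map_one, one_mul, Nat.cast_pow, map_pow]
  rw [hS]
  -- `T_p` twice
  have h1 : lam p ^ 2 * u z = (p : ℂ)⁻¹ * (χ (p : ZMod N) * (χ (p : ZMod N) *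
        u (hkz (p ^ 2, 0, 1) z) + ∑ b ∈ Finset.range p, u (hkz (p, b, p) z)) +
      (p * χ (p : ZMod N) * u z + ∑ j ∈ Finset.range (p ^ 2), u (hkz (1, j, p ^ 2) z))) := by
    have a1 : u (hkz (p, 0, 1) (hkz (p, 0, 1) z)) = u (hkz (p ^ 2, 0, 1) z) := by
      rw [hkz_comp (r := (p ^ 2, 0, 1)) ⟨hp0, one_pos⟩ ⟨hp0, one_pos⟩ ⟨pow_pos hp0 2, one_pos⟩
        (by ring) (by ring)]
    have a2 : ∀ c : ℕ, u (hkz (1, c, p) (hkz (p, 0, 1) z)) = u (hkz (p, c, p) z) := fun c => by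
      rw [hkz_comp (r := (p, c, p)) ⟨one_pos, hp0⟩ ⟨hp0, one_pos⟩ ⟨hp0, hp0⟩
        (by ring) (by ring)]
    have a3 : ∀ b : ℕ, u (hkz (p, 0, 1) (hkz (1, b, p) z)) = u z := fun b => by
      apply hk_translate hu z _ b
      rw [hkz_coe hp0 one_pos, hkz_coe one_pos hp0]
      push_cast
      field_simp
      ring
    have a4 : ∀ b c : ℕ, u (hkz (1, c, p) (hkz (1, b, p) z)) = u (hkz (1, b + p * c, p ^ 2) z) :=
      fun b c => by
      rw [hkz_comp (r := (1, b + p * c, p ^ 2)) ⟨one_pos, hp0⟩ ⟨one_pos, hp0⟩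
        ⟨one_pos, pow_pos hp0 2⟩ (by ring) (by ring)]
    have b1 : lam p * u (hkz (p, 0, 1) z) = ((√(p : ℝ) : ℝ) : ℂ)⁻¹ * (χ (p : ZMod N) *
        u (hkz (p ^ 2, 0, 1) z) + ∑ b ∈ Finset.range p, u (hkz (p, b, p) z)) := by
      rw [hT, a1, Finset.sum_congr rfl fun c _ => a2 c]
    have b2 : ∀ b : ℕ, lam p * u (hkz (1, b, p) z) = ((√(p : ℝ) : ℝ) : ℂ)⁻¹ * (χ (p : ZMod N) *
        u z + ∑ c ∈ Finset.range p, u (hkz (1, b + p * c, p ^ 2) z)) := fun b => by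
      rw [hT, a3, Finset.sum_congr rfl fun c _ => a4 b c]
    have b3 : lam p ^ 2 * u z = ((√(p : ℝ) : ℝ) : ℂ)⁻¹ * (χ (p : ZMod N) *
        (lam p * u (hkz (p, 0, 1) z)) + ∑ b ∈ Finset.range p, lam p * u (hkz (1, b, p) z)) := by
      rw [pow_two, mul_assoc, hT z, ← Finset.mul_sum]
      ring
    rw [b3, b1, Finset.sum_congr rfl fun b _ => b2 b, ← Finset.mul_sum, Finset.sum_add_distrib,
      Finset.sum_const, Finset.card_range, nsmul_eq_mul, ← hsq, pow_two p,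
      hk_sum_range_mul p (fun j => u (hkz (1, j, p * p) z)) p, Finset.sum_comm]
    ring
  have h2 : (p : ℂ) * (lam p ^ 2 * u z) = χ (p : ZMod N) * (χ (p : ZMod N) *
        u (hkz (p ^ 2, 0, 1) z) + ∑ b ∈ Finset.range p, u (hkz (p, b, p) z)) +
      (p * χ (p : ZMod N) * u z + ∑ j ∈ Finset.range (p ^ 2), u (hkz (1, j, p ^ 2) z)) := by
    rw [h1, ← mul_assoc, mul_inv_cancel₀ hpC, one_mul]
  linear_combination -h2

theorem liftK_one {N : ℕ} [NeZero N] {χ : DirichletCharacter ℂ N} {k : ℕ} {lam : ℕ → ℂ}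
    {u : ℍ → ℂ} (hu : WForm N χ k lam u) (h : SL(2, ℝ)) :
    liftK k u (1 : QN N) h = u (h • UpperHalfPlane.I) * (juI h ^ k)⁻¹ := by
  rw [← hk_red_one N, liftK_red_pr hu, hk_toR_one, inv_one, one_mul]

theorem Tm_liftK_pr {N : ℕ} [NeZero N] {χ : DirichletCharacter ℂ N} {k : ℕ} {lam : ℕ → ℂ}
    {u : ℍ → ℂ} (hu : WForm N χ k lam u) (p : ℕ) (hp : p.Prime) (hpN : ¬ p ∣ N) (s : QN N)
    (g : SL(2, ℝ)) :
    Tm p (liftK k u) s g = (conj (χ (p : ZMod N)) * lam p ^ 2 - 1) * liftK k u s g := by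
  have hpN' : p.Coprime N := (Nat.Prime.coprime_iff_not_dvd hp).2 hpN
  have hF := fam_liftK_pr hu
  set h : SL(2, ℝ) := (toR (lft s))⁻¹ * g with hh
  have e1 : s = red N (lft s) * 1 := by rw [mul_one, red_lft_pr]
  have e2 : g = toR (lft s) * h := by rw [hh, mul_inv_cancel_left]
  have e3 : Tm p (liftK k u) s g = Tm p (liftK k u) (1 : QN N) h := by
    conv_lhs => rw [e1, e2]
    exact hk_fam_Tm hp.pos hpN' hF _ _ _
  have e4 : liftK k u s g = liftK k u (1 : QN N) h := by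
    conv_lhs => rw [e1, e2]
    exact hF _ _ _
  have hpC : (p : ℂ) ≠ 0 := by exact_mod_cast hp.ne_zero
  have hχ : conj (χ (p : ZMod N)) * χ (p : ZMod N) = 1 := by
    rw [← hk_chi_inv hpN' χ, ← map_mul, mul_comm, hk_unit hpN', map_one]
  rw [e3, e4, liftK_one hu, Tm, Finset.sum_congr rfl fun t ht => hk_term hu hp.pos hpN' ht h,
    ← Finset.mul_sum, hk_sum_HM hu hp hpN]
  field_simp
  linear_combination (-(u (h • UpperHalfPlane.I)) * (juI h ^ k)⁻¹) * hχ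

end Pool.Agent.JO
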