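import Pool.Agent.Lib_helper97.JO.HKE

/-!
# Project JO (MP_f4574f_nt), block HK, part F: uniform decay from the behaviour at the cusps
-/

set_option autoImplicit false

namespace Pool.Agent.JO

open Complex MeasureTheory Filter Topology
open UpperHalfPlane hiding I
open scoped MatrixGroups ComplexConjugate

/-- the norm of `u` is invariant under `Γ(N)` on the left -/
theorem hk_norm_left {N : ℕ} [NeZero N] {χ : DirichletCharacter ℂ N} {k : ℕ} {u : ℍ → ℂ}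
    (aut : ∀ γ : SL(2, ℤ), (N : ℤ) ∣ γ 1 0 → ∀ z : ℍ,
      u (γ • z) = χ ((γ 1 1 : ℤ) : ZMod N) * (denom γ z / ‖denom γ z‖) ^ k * u z)
    (δ : SL(2, ℤ)) (hδ : red N δ = 1) (z : ℍ) : ‖u (δ • z)‖ = ‖u z‖ := by
  have h2 : (N : ℤ) ∣ δ 1 0 := by
    rw [← ZMod.intCast_zmod_eq_zero_iff_dvd, ← hk_red_apply, hδ]
    rfl
  have h3 : ((δ 1 1 : ℤ) : ZMod N) = 1 := by
    rw [← hk_red_apply, hδ]
    rfl
  rw [aut δ h2 z, h3, map_one, one_mul, norm_mul, norm_pow]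
  have h4 : ‖(denom δ z / (‖denom δ z‖ : ℂ))‖ = 1 := hkju_norm (toR δ) z
  rw [h4, one_pow, one_mul]

theorem hk_norm_eq {N : ℕ} [NeZero N] {χ : DirichletCharacter ℂ N} {k : ℕ} {u : ℍ → ℂ}
    (aut : ∀ γ : SL(2, ℤ), (N : ℤ) ∣ γ 1 0 → ∀ z : ℍ,
      u (γ • z) = χ ((γ 1 1 : ℤ) : ZMod N) * (denom γ z / ‖denom γ z‖) ^ k * u z)
    (γ γ' : SL(2, ℤ)) (h : red N γ = red N γ') (z : ℍ) : ‖u (γ • z)‖ = ‖u (γ' • z)‖ := by
  have h1 : red N (γ * γ'⁻¹) = 1 := by rw [hk_red_mul, hk_red_inv, h, mul_inv_cancel]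
  have h2 := hk_norm_left aut (γ * γ'⁻¹) h1 (γ' • z)
  rwa [mul_smul, inv_smul_smul] at h2

/-- translation by `N` -/
theorem hk_norm_period {N : ℕ} [NeZero N] {χ : DirichletCharacter ℂ N} {k : ℕ} {u : ℍ → ℂ}
    (aut : ∀ γ : SL(2, ℤ), (N : ℤ) ∣ γ 1 0 → ∀ z : ℍ,
      u (γ • z) = χ ((γ 1 1 : ℤ) : ZMod N) * (denom γ z / ‖denom γ z‖) ^ k * u z)
    (γ : SL(2, ℤ)) (z w : ℍ) (m : ℤ) (h : (w : ℂ) = z + ((m * N : ℤ) : ℂ)) :
    ‖u (γ • w)‖ = ‖u (γ • z)‖ := by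
  set τ : SL(2, ℤ) := ⟨!![1, m * N; 0, 1], by rw [Matrix.det_fin_two_of]; ring⟩ with hτ
  have h1 : τ • z = w := by
    apply UpperHalfPlane.ext
    rw [← hk_toR_smul, hk_smul_coe, hkj, h]
    have g00 : toR τ 0 0 = 1 := by rw [hk_toR_apply]; simp [hτ]
    have g01 : toR τ 0 1 = ((m * N : ℤ) : ℝ) := by rw [hk_toR_apply]; simp [hτ]
    have g10 : toR τ 1 0 = 0 := by rw [hk_toR_apply]; simp [hτ]
    have g11 : toR τ 1 1 = 1 := by rw [hk_toR_apply]; simp [hτ]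
    rw [g00, g01, g10, g11]
    simp
  have h2 : red N τ = 1 := by
    have e00 : red N τ 0 0 = 1 := by rw [hk_red_apply]; simp [hτ]
    have e01 : red N τ 0 1 = 0 := by rw [hk_red_apply]; simp [hτ]
    have e10 : red N τ 1 0 = 0 := by rw [hk_red_apply]; simp [hτ]
    have e11 : red N τ 1 1 = 1 := by rw [hk_red_apply]; simp [hτ]
    ext i j
    fin_cases i <;> fin_cases j
    · exact e00
    · exact e01
    · exact e10
    · exact e11
  rw [← h1, ← mul_smul]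
  apply hk_norm_eq aut
  rw [hk_red_mul, h2, mul_one]

theorem hk_one_cusp {N : ℕ} [NeZero N] {χ : DirichletCharacter ℂ N} {k : ℕ} {u : ℍ → ℂ}
    (cont : Continuous u)
    (aut : ∀ γ : SL(2, ℤ), (N : ℤ) ∣ γ 1 0 → ∀ z : ℍ,
      u (γ • z) = χ ((γ 1 1 : ℤ) : ZMod N) * (denom γ z / ‖denom γ z‖) ^ k * u z)
    {c : ℝ} (hc : 0 < c) (γ : SL(2, ℤ))
    (decay : (fun z : ℍ => u (γ • z)) =O[atImInfty] fun z : ℍ => Real.exp (-c * z.im)) :
    ∃ C : ℝ, ∀ z : ℍ, 1 / 2 ≤ z.im → ‖u (γ • z)‖ ≤ C * Real.exp (-c * z.im) := by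
  obtain ⟨C₁, hC₁⟩ := decay.bound
  obtain ⟨A, hA⟩ := (UpperHalfPlane.atImInfty_mem _).1 hC₁
  -- a compact set
  have hpos : ∀ p : ℝ × ℝ, 0 < ((p.1 : ℂ) + ((max p.2 (1 / 2) : ℝ) : ℂ) * I).im := fun p => by
    simp only [Complex.add_im, Complex.ofReal_im, Complex.mul_im, Complex.ofReal_re, Complex.I_im,
      mul_one, Complex.I_re, mul_zero, add_zero, zero_add]
    exact lt_of_lt_of_le (by norm_num) (le_max_right _ _)
  have hcont : Continuous fun p : ℝ × ℝ =>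
      (⟨(p.1 : ℂ) + ((max p.2 (1 / 2) : ℝ) : ℂ) * I, hpos p⟩ : ℍ) := by
    refine Continuous.upperHalfPlaneMk ?_ _
    fun_prop
  set G : ℝ × ℝ → ℂ := fun p => u (γ • (⟨(p.1 : ℂ) + ((max p.2 (1 / 2) : ℝ) : ℂ) * I, hpos p⟩ : ℍ))
    with hG
  have hGc : Continuous G := by
    have : Continuous fun z : ℍ => γ • z := by
      have h0 : Continuous fun z : ℍ => toR γ • z := continuous_const_smul _
      refine h0.congr fun z => ?_
      exact hk_toR_smul γ z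
    exact cont.comp (this.comp hcont)
  obtain ⟨B, hB⟩ := (isCompact_Icc.prod isCompact_Icc : IsCompact (Set.Icc (0 : ℝ) N ×ˢ
    Set.Icc (1 / 2 : ℝ) (max A (1 / 2)))).exists_bound_of_continuousOn hGc.continuousOn
  refine ⟨|C₁| + |B| * Real.exp (c * max A (1 / 2)), fun z hz => ?_⟩
  rcases le_or_gt A z.im with h | h
  · have h1 : ‖u (γ • z)‖ ≤ C₁ * ‖Real.exp (-c * z.im)‖ := hA z h
    rw [Real.norm_of_nonneg (Real.exp_pos _).le] at h1
    refine h1.trans (mul_le_mul_of_nonneg_right ?_ (Real.exp_pos _).le)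
    have : 0 ≤ |B| * Real.exp (c * max A (1 / 2)) := by positivity
    linarith [le_abs_self C₁]
  · -- move to the compact set
    have hN : (0 : ℝ) < N := by exact_mod_cast Nat.pos_of_ne_zero (NeZero.ne N)
    set m : ℤ := ⌊z.re / N⌋ with hm
    set x : ℝ := z.re - m * N with hx
    have hx0 : 0 ≤ x := by
      have := Int.floor_le (z.re / N)
      rw [← hm, le_div_iff₀ hN] at this
      linarith
    have hx1 : x ≤ N := by
      have := Int.lt_floor_add_one (z.re / N)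
      rw [← hm, div_lt_iff₀ hN] at this
      linarith
    have hmem : (x, z.im) ∈ Set.Icc (0 : ℝ) N ×ˢ Set.Icc (1 / 2 : ℝ) (max A (1 / 2)) :=
      ⟨⟨hx0, hx1⟩, ⟨hz, h.le.trans (le_max_left _ _)⟩⟩
    have h1 := hB _ hmem
    have h2 : ‖G (x, z.im)‖ = ‖u (γ • z)‖ := by
      rw [hG]
      apply hk_norm_period aut γ z _ (-m)
      apply Complex.ext
      · show (((x : ℝ) : ℂ) + ((max z.im (1 / 2) : ℝ) : ℂ) * I).re = _
        simp [hx]
        ring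
      · show (((x : ℝ) : ℂ) + ((max z.im (1 / 2) : ℝ) : ℂ) * I).im = _
        rw [max_eq_left hz]
        simp
    rw [h2] at h1
    have h3 : 1 ≤ Real.exp (c * max A (1 / 2)) * Real.exp (-c * z.im) := by
      rw [← Real.exp_add, Real.one_le_exp_iff]
      have : z.im ≤ max A (1 / 2) := h.le.trans (le_max_left _ _)
      nlinarith
    have h4 : |B| ≤ |B| * (Real.exp (c * max A (1 / 2)) * Real.exp (-c * z.im)) :=
      le_mul_of_one_le_right (abs_nonneg B) h3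
    have h5 : 0 ≤ |C₁| * Real.exp (-c * z.im) := by positivity
    calc ‖u (γ • z)‖ ≤ |B| := h1.trans (le_abs_self B)
      _ ≤ |B| * (Real.exp (c * max A (1 / 2)) * Real.exp (-c * z.im)) := h4
      _ ≤ _ := by rw [add_mul, mul_assoc]; linarith

theorem WForm_of_isBigO_pr {N : ℕ} [NeZero N] {χ : DirichletCharacter ℂ N} {k : ℕ} {lam : ℕ → ℂ}
    {u : ℍ → ℂ} (cont : Continuous u)
    (aut : ∀ γ : SL(2, ℤ), (N : ℤ) ∣ γ 1 0 → ∀ z : ℍ,
      u (γ • z) = χ ((γ 1 1 : ℤ) : ZMod N) * (denom γ z / ‖denom γ z‖) ^ k * u z)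
    {c : ℝ} (hc : 0 < c)
    (decay : ∀ γ : SL(2, ℤ), (fun z : ℍ => u (γ • z)) =O[atImInfty]
      fun z : ℍ => Real.exp (-c * z.im))
    (hecke : ∀ p : ℕ, p.Prime → ¬ p ∣ N → ∀ z : ℍ, heckeT χ p u z = lam p * u z) :
    WForm N χ k lam u := by
  refine ⟨cont, aut, ?_, hecke⟩
  have h1 : ∀ s : QN N, ∃ C : ℝ, ∀ z : ℍ, 1 / 2 ≤ z.im →
      ‖u (lft s • z)‖ ≤ C * Real.exp (-c * z.im) := fun s =>
    hk_one_cusp cont aut hc (lft s) (decay (lft s))
  choose C hC using h1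
  refine ⟨∑ s : QN N, |C s|, c, hc, fun γ z hz => ?_⟩
  have h2 : ‖u (γ • z)‖ = ‖u (lft (red N γ) • z)‖ :=
    hk_norm_eq aut γ (lft (red N γ)) (red_lft_pr _).symm z
  rw [h2]
  refine (hC (red N γ) z hz).trans (mul_le_mul_of_nonneg_right ?_ (Real.exp_pos _).le)
  exact (le_abs_self _).trans
    (Finset.single_le_sum (f := fun s : QN N => |C s|) (fun s _ => abs_nonneg _)
      (Finset.mem_univ (red N γ)))

end Pool.Agent.JO
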